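import Pool.Agent.TH92.SymCol.LowerTwo

set_option autoImplicit false

/-!
# The lower bound `r² ms r ≥ 0.768`
-/

namespace Pool.Agent.TH92.SymCol

open MeasureTheory Finset

theorem V_sq (i : ℕ) : (1 + VA i) ^ 2 + VB i ^ 2 ≤ (2005 / 1000) ^ 2 := by
  unfold VA VB
  split_ifs with h
  · have h1 := Real.sin_sq_add_cos_sq (i * beta)
    have h2 := Real.cos_le_one (i * beta)
    nlinarith
  · norm_num

/-- The parabola constant. -/
noncomputable def MM : ℝ := 1817 / 2000 * (2005 / 1000) * (100 * d1) ^ 2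
  + 846 / 2000 * (2005 / 1000) * (100 * d2) ^ 2

theorem MM_nonneg : 0 ≤ MM := by unfold MM; positivity

theorem MM_le : MM ≤ 9521 / 100 := by
  have h1 := d1_le
  have h2 := d2_le
  have h3 := d1_pos
  have h4 := d2_pos
  have e1 : (100 * d1) ^ 2 ≤ (100 * (2737 / 76416)) ^ 2 := by gcongr
  have e2 : (100 * d2) ^ 2 ≤ (100 * (3528 / 38335)) ^ 2 := by gcongr
  unfold MM
  norm_num at e1 e2 ⊢
  linarith

theorem convex_F (σ : ℝ) (hσ : σ ^ 2 = 1) (i j : ℕ) :
    ConvexOn ℝ Set.univ (fun u => F σ i j u + MM / 2 * u ^ 2) := by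
  have hi := V_sq i
  have hj := V_sq j
  have c1 := convex_trig (100 * d1) (1817 / 2000 * (1 + VA i)) (σ * (1817 / 2000 * VB i))
    (1817 / 2000 * (2005 / 1000)) (by norm_num) (by
      have : (1817 / 2000 * (1 + VA i)) ^ 2 + (σ * (1817 / 2000 * VB i)) ^ 2
        = (1817 / 2000) ^ 2 * ((1 + VA i) ^ 2 + σ ^ 2 * VB i ^ 2) := by ring
      rw [this, hσ, one_mul]
      nlinarith)
  have c2 := convex_trig (100 * d2) (846 / 2000 * (1 + VA j)) (σ * (846 / 2000 * VB j))
    (846 / 2000 * (2005 / 1000)) (by norm_num) (by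
      have : (846 / 2000 * (1 + VA j)) ^ 2 + (σ * (846 / 2000 * VB j)) ^ 2
        = (846 / 2000) ^ 2 * ((1 + VA j) ^ 2 + σ ^ 2 * VB j ^ 2) := by ring
      rw [this, hσ, one_mul]
      nlinarith)
  have c3 := (c1.add c2).add (convexOn_const (1 : ℝ) convex_univ)
  refine c3.congr ?_
  intro u _
  simp only [Pi.add_apply]
  unfold F MM
  ring

/-- The kernel at a pair of vertices. -/
noncomputable def FF (i j : ℕ) (s : ℝ) : ℝ :=
  1 + 1817 / 2000 * ((1 + VA i) * Real.cos (100 * d1 * (s - 1)) + VB i * Real.sin (100 * d1 * (s - 1)))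
    + 846 / 2000 * ((1 + VA j) * Real.cos (100 * d2 * (s - 1)) + VB j * Real.sin (100 * d2 * (s - 1)))

theorem continuous_FF (i j : ℕ) : Continuous (FF i j) := by
  unfold FF; fun_prop

theorem integral_FF_le (i j : ℕ) (hi : i < 34) (hj : j < 34) :
    ∫ s in (0 : ℝ)..2, max (FF i j s) 0 ≤ 2055 / 1000 := by
  have hc : Continuous fun s => max (FF i j s) 0 := (continuous_FF i j).max continuous_const
  have h1 : ∫ s in (0 : ℝ)..2, max (FF i j s) 0
      = (∫ s in (0 : ℝ)..1, max (FF i j s) 0) + ∫ s in (1 : ℝ)..2, max (FF i j s) 0 :=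
    (intervalIntegral.integral_add_adjacent_intervals (hc.intervalIntegrable _ _)
      (hc.intervalIntegrable _ _)).symm
  have h2 : ∫ s in (1 : ℝ)..2, max (FF i j s) 0 = ∫ u in (0 : ℝ)..1, max (F 1 i j u) 0 := by
    have := intervalIntegral.integral_comp_add_left (fun s => max (FF i j s) 0) (1 : ℝ)
      (a := 0) (b := 1)
    rw [show (1 : ℝ) + 0 = 1 by norm_num, show (1 : ℝ) + 1 = 2 by norm_num] at this
    rw [← this]
    apply intervalIntegral.integral_congr
    intro u _
    simp only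
    congr 1
    unfold FF F
    rw [show (1 : ℝ) + u - 1 = u by ring]
    ring
  have h3 : ∫ s in (0 : ℝ)..1, max (FF i j s) 0 = ∫ u in (0 : ℝ)..1, max (F (-1) i j u) 0 := by
    have := intervalIntegral.integral_comp_sub_left (fun s => max (FF i j s) 0) (1 : ℝ)
      (a := 0) (b := 1)
    rw [show (1 : ℝ) - 1 = 0 by norm_num, show (1 : ℝ) - 0 = 1 by norm_num] at this
    rw [← this]
    apply intervalIntegral.integral_congr
    intro u _
    simp only
    congr 1
    unfold FF F
    rw [show 100 * d1 * (1 - u - 1) = -(100 * d1 * u) by ring,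
      show 100 * d2 * (1 - u - 1) = -(100 * d2 * u) by ring, Real.cos_neg, Real.cos_neg,
      Real.sin_neg, Real.sin_neg]
    ring
  have g1 := grid (F 1 i j) (continuous_F 1 i j) MM MM_nonneg (convex_F 1 (by norm_num) i j)
    100 (by norm_num)
  have g2 := grid (F (-1) i j) (continuous_F (-1) i j) MM MM_nonneg
    (convex_F (-1) (by norm_num) i j) 100 (by norm_num)
  have hsum : 20000000000000000000000 *
      (∑ m ∈ range 100, (max (F 1 i j ((m : ℝ) / (100 : ℕ))) 0
        + max (F 1 i j (((m + 1 : ℕ) : ℝ) / (100 : ℕ))) 0)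
      + ∑ m ∈ range 100, (max (F (-1) i j ((m : ℝ) / (100 : ℕ))) 0
        + max (F (-1) i j (((m + 1 : ℕ) : ℝ) / (100 : ℕ))) 0))
      ≤ 8213470304637574000000000 + 78000000000000000000 := by
    rw [← Finset.sum_add_distrib, Finset.mul_sum]
    have h5 : ∀ m ∈ range 100, 20000000000000000000000 *
        ((max (F 1 i j ((m : ℝ) / (100 : ℕ))) 0
        + max (F 1 i j (((m + 1 : ℕ) : ℝ) / (100 : ℕ))) 0)
        + (max (F (-1) i j ((m : ℝ) / (100 : ℕ))) 0
        + max (F (-1) i j (((m + 1 : ℕ) : ℝ) / (100 : ℕ))) 0))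
        ≤ ((Num.gfun (Num.V2.getD i 0) (Num.V2.getD j 0) (Num.Q4.getD m 0)
          + Num.gfun (Num.V2.getD i 0) (Num.V2.getD j 0) (Num.Q4.getD (m + 1) 0) : ℕ) : ℝ)
          + 780000000000000000 := by
      intro m hm
      rw [mem_range] at hm
      have a1 := F_le i j m hi hj (by omega)
      have a2 := F_le i j (m + 1) hi hj (by omega)
      push_cast at a1 a2 ⊢
      linarith
    refine (Finset.sum_le_sum h5).trans ?_
    rw [Finset.sum_add_distrib, ← Nat.cast_sum, Finset.sum_const, card_range]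
    have h6 := main_sum i j hi hj
    have h7 : ((∑ m ∈ range 100, (Num.gfun (Num.V2.getD i 0) (Num.V2.getD j 0) (Num.Q4.getD m 0)
      + Num.gfun (Num.V2.getD i 0) (Num.V2.getD j 0) (Num.Q4.getD (m + 1) 0)) : ℕ) : ℝ)
        ≤ ((8213470304637574000000000 : ℕ) : ℝ) := Nat.cast_le.2 h6
    have h8 : ((8213470304637574000000000 : ℕ) : ℝ) = 8213470304637574000000000 := by norm_num
    have h9 : ((100 : ℕ) : ℝ) * 780000000000000000 = 78000000000000000000 := by norm_num
    rw [h8] at h7
    rw [nsmul_eq_mul, h9]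
    exact add_le_add h7 le_rfl
  have hM := MM_le
  rw [h1, h2, h3]
  set A := ∑ m ∈ range 100, (max (F 1 i j ((m : ℝ) / (100 : ℕ))) 0
        + max (F 1 i j (((m + 1 : ℕ) : ℝ) / (100 : ℕ))) 0) with hA
  set B := ∑ m ∈ range 100, (max (F (-1) i j ((m : ℝ) / (100 : ℕ))) 0
        + max (F (-1) i j (((m + 1 : ℕ) : ℝ) / (100 : ℕ))) 0) with hB
  have k1 : A / (2 * (100 : ℕ)) = A / 200 := by norm_num
  have k2 : B / (2 * (100 : ℕ)) = B / 200 := by norm_num
  have k3 : MM / (12 * ((100 : ℕ) : ℝ) ^ 2) = MM / 120000 := by norm_num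
  rw [k1, k3] at g1
  rw [k2, k3] at g2
  linarith

/-- The frequencies. -/
noncomputable def xiT : Fin 3 → ℝ := ![0, 100 * d1, 100 * d2]

/-- The weights. -/
noncomputable def pT : Fin 3 → ℝ := ![1, 1817 / 1000, 846 / 1000]

theorem hC_T (χ : Fin 3 → ℝ) : ∫⁻ s in Set.Icc (0 : ℝ) 2, ENNReal.ofReal (ker xiT pT χ s)
    ≤ ENNReal.ofReal (2055 / 1000) := by
  obtain ⟨l, l0, l1, lA, lB⟩ := poly (2 * χ 1)
  obtain ⟨k, k0, k1, kA, kB⟩ := poly (2 * χ 2)
  set g : ℝ → ℝ := fun s => ∑ i ∈ range 34, ∑ j ∈ range 34, l i * k j * max (FF i j s) 0 with hg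
  have hcm : ∀ i j, Continuous fun s => l i * k j * max (FF i j s) 0 := fun i j =>
    continuous_const.mul ((continuous_FF i j).max continuous_const)
  have hgc : Continuous g :=
    continuous_finsetSum _ fun i _ => continuous_finsetSum _ fun j _ => hcm i j
  have hg0 : ∀ s, 0 ≤ g s := fun s => Finset.sum_nonneg fun i _ => Finset.sum_nonneg fun j _ =>
    mul_nonneg (mul_nonneg (l0 i) (k0 j)) (le_max_right _ _)
  have hconv : ∀ s, ∑ i ∈ range 34, ∑ j ∈ range 34, l i * k j * FF i j s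
      = 1 + 1817 / 2000 * ((1 + Real.cos (2 * χ 1)) * Real.cos (100 * d1 * (s - 1))
          + Real.sin (2 * χ 1) * Real.sin (100 * d1 * (s - 1)))
        + 846 / 2000 * ((1 + Real.cos (2 * χ 2)) * Real.cos (100 * d2 * (s - 1))
          + Real.sin (2 * χ 2) * Real.sin (100 * d2 * (s - 1))) := by
    intro s
    set C1 := Real.cos (100 * d1 * (s - 1)) with hC1
    set S1 := Real.sin (100 * d1 * (s - 1)) with hS1
    set C2 := Real.cos (100 * d2 * (s - 1)) with hC2
    set S2 := Real.sin (100 * d2 * (s - 1)) with hS2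
    have inner : ∀ i, ∑ j ∈ range 34, l i * k j * FF i j s
        = l i * (1 + 1817 / 2000 * ((1 + VA i) * C1 + VB i * S1)
          + 846 / 2000 * ((1 + Real.cos (2 * χ 2)) * C2 + Real.sin (2 * χ 2) * S2)) := by
      intro i
      have e : ∀ j, l i * k j * FF i j s
          = l i * (1 + 1817 / 2000 * ((1 + VA i) * C1 + VB i * S1) + 846 / 2000 * C2) * k j
            + l i * (846 / 2000) * C2 * (k j * VA j) + l i * (846 / 2000) * S2 * (k j * VB j) := by
        intro j
        unfold FF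
        ring
      rw [Finset.sum_congr rfl fun j _ => e j, Finset.sum_add_distrib, Finset.sum_add_distrib,
        ← Finset.mul_sum, ← Finset.mul_sum, ← Finset.mul_sum, k1, kA, kB]
      ring
    have e2 : ∀ i, l i * (1 + 1817 / 2000 * ((1 + VA i) * C1 + VB i * S1)
          + 846 / 2000 * ((1 + Real.cos (2 * χ 2)) * C2 + Real.sin (2 * χ 2) * S2))
        = (1 + 1817 / 2000 * C1
          + 846 / 2000 * ((1 + Real.cos (2 * χ 2)) * C2 + Real.sin (2 * χ 2) * S2)) * l i
          + 1817 / 2000 * C1 * (l i * VA i) + 1817 / 2000 * S1 * (l i * VB i) := by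
      intro i; ring
    rw [Finset.sum_congr rfl fun i _ => inner i, Finset.sum_congr rfl fun i _ => e2 i,
      Finset.sum_add_distrib, Finset.sum_add_distrib,
      ← Finset.mul_sum, ← Finset.mul_sum, ← Finset.mul_sum, l1, lA, lB]
    ring
  have hle : ∀ s, ker xiT pT χ s ≤ g s := by
    intro s
    have h1 : ker xiT pT χ s ≤ ∑ i ∈ range 34, ∑ j ∈ range 34, l i * k j * FF i j s := by
      rw [hconv]
      unfold ker xiT pT
      rw [Fin.sum_univ_three]
      simp only [Matrix.cons_val_zero, Matrix.cons_val_one, Matrix.cons_val]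
      have a0 : Real.cos (χ 0) * Real.cos (0 * (s - 1) - χ 0) ≤ 1 := by
        rw [zero_mul, zero_sub, Real.cos_neg]
        nlinarith [Real.cos_sq_le_one (χ 0)]
      have a1 : ∀ x u : ℝ, Real.cos x * Real.cos (u - x)
          = 1 / 2 * ((1 + Real.cos (2 * x)) * Real.cos u + Real.sin (2 * x) * Real.sin u) := by
        intro x u
        rw [Real.cos_sub, Real.cos_two_mul, Real.sin_two_mul]
        ring
      rw [a1 (χ 1), a1 (χ 2)]
      linarith
    refine h1.trans ?_
    refine Finset.sum_le_sum fun i _ => Finset.sum_le_sum fun j _ => ?_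
    exact mul_le_mul_of_nonneg_left (le_max_left _ _) (mul_nonneg (l0 i) (k0 j))
  calc ∫⁻ s in Set.Icc (0 : ℝ) 2, ENNReal.ofReal (ker xiT pT χ s)
      ≤ ∫⁻ s in Set.Icc (0 : ℝ) 2, ENNReal.ofReal (g s) :=
        lintegral_mono fun s => ENNReal.ofReal_le_ofReal (hle s)
    _ = ENNReal.ofReal (∫ s in Set.Icc (0 : ℝ) 2, g s) := by
        rw [ofReal_integral_eq_lintegral_ofReal (hgc.integrableOn_Icc)
          (Filter.Eventually.of_forall hg0)]
    _ ≤ _ := by
        apply ENNReal.ofReal_le_ofReal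
        rw [integral_Icc_eq_integral_Ioc, ← intervalIntegral.integral_of_le (by norm_num), hg]
        rw [intervalIntegral.integral_finsetSum fun i _ =>
          (continuous_finsetSum _ fun j _ => hcm i j).intervalIntegrable _ _]
        have e1 : ∀ i ∈ range 34, ∫ s in (0 : ℝ)..2, ∑ j ∈ range 34, l i * k j * max (FF i j s) 0
            ≤ l i * (2055 / 1000) := by
          intro i hi
          rw [intervalIntegral.integral_finsetSum fun j _ => (hcm i j).intervalIntegrable _ _]
          have e2 : ∀ j ∈ range 34, ∫ s in (0 : ℝ)..2, l i * k j * max (FF i j s) 0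
              ≤ l i * (2055 / 1000) * k j := by
            intro j hj
            rw [intervalIntegral.integral_const_mul]
            have := integral_FF_le i j (mem_range.1 hi) (mem_range.1 hj)
            have h0 := mul_nonneg (l0 i) (k0 j)
            nlinarith
          refine (Finset.sum_le_sum e2).trans ?_
          rw [← Finset.mul_sum, k1, mul_one]
        refine (Finset.sum_le_sum e1).trans ?_
        rw [← Finset.sum_mul, l1, one_mul]

theorem S_int (d : ℝ) (hd : 0 < d) : ∫ x in Set.Icc (0 : ℝ) 1, Real.cos (100 * d * (x - 1 / 2))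
    = Real.sin (50 * d) / (50 * d) := by
  rw [integral_Icc_eq_integral_Ioc, ← intervalIntegral.integral_of_le (by norm_num)]
  have h1 : ∀ x : ℝ, Real.cos (100 * d * (x - 1 / 2)) = Real.cos (100 * d * x - 50 * d) := by
    intro x; congr 1; ring
  simp_rw [h1]
  rw [intervalIntegral.integral_comp_mul_sub (fun x => Real.cos x) (by positivity), integral_cos]
  have h2 : 100 * d * 1 - 50 * d = 50 * d := by ring
  have h3 : 100 * d * 0 - 50 * d = -(50 * d) := by ring
  rw [h2, h3, Real.sin_neg, smul_eq_mul]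
  field_simp
  ring

theorem S1_sq : 2970 / 10000 ≤ (Real.sin (50 * d1) / (50 * d1)) ^ 2 := by
  have h1 := (tab1 50 (by norm_num)).2
  have hv : (Num.s1L.getD 50 0) = 97605133 := by decide +kernel
  rw [hv, abs_le] at h1
  push_cast at h1
  have h2 : 97605033 / 100000000 ≤ Real.sin (50 * d1) := by linarith [h1.2]
  have h3 := d1_pos
  have h4 := d1_le
  rw [div_pow, le_div_iff₀ (by positivity)]
  have h5 : (50 * d1) ^ 2 ≤ (50 * (2737 / 76416)) ^ 2 := by gcongr
  have h6 : (97605033 / 100000000 : ℝ) ^ 2 ≤ Real.sin (50 * d1) ^ 2 := by gcongr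
  norm_num at h5 h6 ⊢
  linarith

theorem S2_sq : 465 / 10000 ≤ (Real.sin (50 * d2) / (50 * d2)) ^ 2 := by
  have h1 := (tab2 50 (by norm_num)).2
  have hv : (Num.s2L.getD 50 0) = -99234959 := by decide +kernel
  rw [hv, abs_le] at h1
  push_cast at h1
  have h2 : 99234859 / 100000000 ≤ -Real.sin (50 * d2) := by linarith [h1.1]
  have h3 := d2_pos
  have h4 := d2_le
  rw [div_pow, le_div_iff₀ (by positivity)]
  have h5 : (50 * d2) ^ 2 ≤ (50 * (3528 / 38335)) ^ 2 := by gcongr
  have h6 : (99234859 / 100000000 : ℝ) ^ 2 ≤ (-Real.sin (50 * d2)) ^ 2 := by gcongr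
  rw [neg_sq] at h6
  norm_num at h5 h6 ⊢
  linarith

/-- `r² ms r ≥ 0.768` for every `r ≥ 1`. -/
theorem ms_ge_768 (r : ℕ) (hr : 0 < r) : 768 / 1000 ≤ (r : ℝ) ^ 2 * ms r := by
  have h := ms_ge xiT pT (2055 / 1000) (by norm_num) (by
    intro k
    fin_cases k <;> simp [pT] <;> norm_num) hC_T r hr
  rw [Fin.sum_univ_three] at h
  simp only [xiT, pT, Matrix.cons_val_zero, Matrix.cons_val_one, Matrix.cons_val,
    S_int d1 d1_pos, S_int d2 d2_pos] at h
  have e0 : ∫ x in Set.Icc (0 : ℝ) 1, Real.cos (0 * (x - 1 / 2)) = 1 := by simp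
  rw [e0] at h
  have h1 := S1_sq
  have h2 := S2_sq
  refine le_trans ?_ h
  rw [le_div_iff₀ (by norm_num)]
  linarith

end Pool.Agent.TH92.SymCol
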