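import Mathlib

set_option autoImplicit false

/-!
# Blow-up of a self-convolution

`F : ℕ → ℕ` has self-convolution at most `B`; the function `k ↦ F (k / L)` has self-convolution at
most `L * B`.
-/

namespace Pool.Agent.TH92.SymCol

open Finset

theorem conv_blow (F : ℕ → ℕ) (B L : ℕ)
    (hB : ∀ u, ∑ a ∈ range (u + 1), F a * F (u - a) ≤ B) (s : ℕ) (hL : 0 < L) :
    ∑ k ∈ range (s + 1), F (k / L) * F ((s - k) / L) ≤ L * B := by
  have h1 : ∑ k ∈ range (s + 1), F (k / L) * F ((s - k) / L)
      = ∑ b ∈ range L, ∑ k ∈ (range (s + 1)).filter (fun k => k % L = b),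
          F (k / L) * F ((s - k) / L) := by
    rw [Finset.sum_fiberwise_of_maps_to]
    intro k _
    exact mem_range.2 (Nat.mod_lt _ hL)
  rw [h1]
  have h2 : ∀ b ∈ range L, ∑ k ∈ (range (s + 1)).filter (fun k => k % L = b),
      F (k / L) * F ((s - k) / L) ≤ B := by
    intro b _
    set u := (s - b) / L with hu
    have key : ∀ k ∈ (range (s + 1)).filter (fun k => k % L = b),
        k / L ≤ u ∧ (s - k) / L = u - k / L := by
      intro k hk
      rw [mem_filter, mem_range] at hk
      obtain ⟨hk1, hk2⟩ := hk
      have hdm := Nat.div_add_mod k L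
      rw [hk2] at hdm
      have e : s - k = (s - b) - L * (k / L) := by omega
      constructor
      · rw [hu, Nat.le_div_iff_mul_le hL, mul_comm]; omega
      · rw [e, hu]
        rw [Nat.sub_mul_div]
    have h3 : ∑ k ∈ (range (s + 1)).filter (fun k => k % L = b),
        F (k / L) * F ((s - k) / L)
        = ∑ a ∈ ((range (s + 1)).filter (fun k => k % L = b)).image (fun k => k / L),
          F a * F (u - a) := by
      rw [Finset.sum_image]
      · apply Finset.sum_congr rfl
        intro k hk
        rw [(key k hk).2]
      · intro k hk l hl hkl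
        rw [Finset.mem_coe, mem_filter] at hk hl
        have a1 := Nat.div_add_mod k L
        have a2 := Nat.div_add_mod l L
        simp only at hkl
        rw [hk.2, hkl] at a1
        rw [hl.2] at a2
        omega
    rw [h3]
    refine le_trans (Finset.sum_le_sum_of_subset ?_) (hB u)
    intro a ha
    rw [mem_image] at ha
    obtain ⟨k, hk, rfl⟩ := ha
    rw [mem_range]
    have := (key k hk).1
    omega
  calc _ ≤ ∑ _b ∈ range L, B := Finset.sum_le_sum h2
    _ = L * B := by simp

end Pool.Agent.TH92.SymCol
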