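import Mathlib

set_option autoImplicit false

/-!
# Monochromatic symmetric subsets of the unit interval: definitions
-/

namespace Pool.Agent.TH92.SymCol

open MeasureTheory

/-- `A` is symmetric: `A = 2 x - A` for some `x`. -/
def IsSymm (A : Set ℝ) : Prop := ∃ x : ℝ, A = (fun t => 2 * x - t) '' A

/-- `χ` is a measurable `r`-colouring of `[0,1]` (only the values of `χ` on `[0,1]` matter): the
colour classes are Lebesgue measurable. -/
def IsColouring (r : ℕ) (χ : ℝ → Fin r) : Prop :=
  ∀ i : Fin r, NullMeasurableSet {t | t ∈ Set.Icc (0 : ℝ) 1 ∧ χ t = i} volume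

/-- `ms([0,1], r)`: the supremum of all `ε > 0` such that every measurable `r`-colouring of `[0,1]`
admits a measurable symmetric monochromatic set `A ⊆ [0,1]` of measure at least `ε`. -/
noncomputable def ms (r : ℕ) : ℝ :=
  sSup {ε : ℝ | 0 < ε ∧ ∀ χ : ℝ → Fin r, IsColouring r χ →
    ∃ A : Set ℝ, A ⊆ Set.Icc (0 : ℝ) 1 ∧ NullMeasurableSet A volume ∧ IsSymm A ∧
      (∃ i : Fin r, ∀ t ∈ A, χ t = i) ∧ ENNReal.ofReal ε ≤ volume A}

end Pool.Agent.TH92.SymCol
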