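import Mathlib

set_option autoImplicit false

/-!
# Upper bounds for integrals of positive parts from grid values
-/

namespace Pool.Agent.TH92.SymCol

open MeasureTheory Finset

/-- One cell. -/
theorem cell (G : ℝ → ℝ) (hG : Continuous G) (M : ℝ) (hM : 0 ≤ M)
    (hconv : ConvexOn ℝ Set.univ (fun u => G u + M / 2 * u ^ 2)) (a h : ℝ) (hh : 0 < h) :
    ∫ u in a..(a + h), max (G u) 0 ≤ h * (max (G a) 0 + max (G (a + h)) 0) / 2 + M * h ^ 3 / 12 := by
  set A := max (G a) 0 with hA
  set B := max (G (a + h)) 0 with hB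
  have hA0 : 0 ≤ A := le_max_right _ _
  have hB0 : 0 ≤ B := le_max_right _ _
  have hpt : ∀ u ∈ Set.Icc a (a + h), max (G u) 0 ≤
      ((a + h - u) * A + (u - a) * B) / h + M / 2 * ((u - a) * (a + h - u)) := by
    intro u hu
    have hu1 : 0 ≤ u - a := by linarith [hu.1]
    have hu2 : 0 ≤ a + h - u := by linarith [hu.2]
    have hq : 0 ≤ M / 2 * ((u - a) * (a + h - u)) := by positivity
    apply max_le
    · have hc := hconv.2 (Set.mem_univ a) (Set.mem_univ (a + h))
        (show 0 ≤ (a + h - u) / h by positivity) (show 0 ≤ (u - a) / h by positivity)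
        (by field_simp; ring)
      simp only [smul_eq_mul] at hc
      have e1 : (a + h - u) / h * a + (u - a) / h * (a + h) = u := by
        field_simp; ring
      rw [e1] at hc
      have hGA : G a ≤ A := le_max_left _ _
      have hGB : G (a + h) ≤ B := le_max_left _ _
      have h1 : (a + h - u) / h * (G a + M / 2 * a ^ 2) + (u - a) / h * (G (a + h)
          + M / 2 * (a + h) ^ 2) - M / 2 * u ^ 2
          = ((a + h - u) * G a + (u - a) * G (a + h)) / h + M / 2 * ((u - a) * (a + h - u)) := by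
        field_simp
        ring
      have h2 : ((a + h - u) * G a + (u - a) * G (a + h)) / h
          ≤ ((a + h - u) * A + (u - a) * B) / h := by
        gcongr
      linarith
    · have : 0 ≤ ((a + h - u) * A + (u - a) * B) / h := by positivity
      linarith
  have hint : ∫ u in a..(a + h), (((a + h - u) * A + (u - a) * B) / h
      + M / 2 * ((u - a) * (a + h - u))) = h * (A + B) / 2 + M * h ^ 3 / 12 := by
    have hder : ∀ u ∈ Set.uIcc a (a + h), HasDerivAt (fun u : ℝ =>
        (-(a + h - u) ^ 2 / 2 * A + (u - a) ^ 2 / 2 * B) / h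
        + M / 2 * (h * (u - a) ^ 2 / 2 - (u - a) ^ 3 / 3))
        (((a + h - u) * A + (u - a) * B) / h + M / 2 * ((u - a) * (a + h - u))) u := by
      intro u _
      have d1 : HasDerivAt (fun u : ℝ => a + h - u) (-1) u := by
        simpa using (hasDerivAt_id u).const_sub (a + h)
      have d2 : HasDerivAt (fun u : ℝ => u - a) 1 u := by
        simpa using (hasDerivAt_id u).sub_const a
      have d3 := (((((d1.pow 2).neg.div_const 2).mul_const A).add
        (((d2.pow 2).div_const 2).mul_const B)).div_const h).add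
        (((((d2.pow 2).const_mul h).div_const 2).sub ((d2.pow 3).div_const 3)).const_mul (M / 2))
      refine (d3.congr_deriv ?_)
      have e2 : (2 : ℕ) - 1 = 1 := rfl
      have e3 : (3 : ℕ) - 1 = 2 := rfl
      rw [e2, e3]
      push_cast
      field_simp
      ring
    rw [intervalIntegral.integral_eq_sub_of_hasDerivAt hder
      (Continuous.intervalIntegrable (by fun_prop) _ _)]
    field_simp
    ring
  rw [← hint]
  apply intervalIntegral.integral_mono_on (by linarith)
  · exact Continuous.intervalIntegrable (by fun_prop) _ _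
  · exact Continuous.intervalIntegrable (by fun_prop) _ _
  · exact hpt

theorem grid (G : ℝ → ℝ) (hG : Continuous G) (M : ℝ) (hM : 0 ≤ M)
    (hconv : ConvexOn ℝ Set.univ (fun u => G u + M / 2 * u ^ 2)) (n : ℕ) (hn : 0 < n) :
    ∫ u in (0 : ℝ)..1, max (G u) 0 ≤
      (∑ m ∈ range n, (max (G (m / n)) 0 + max (G ((m + 1 : ℕ) / n)) 0)) / (2 * n)
        + M / (12 * n ^ 2) := by
  have hn' : (0 : ℝ) < n := by exact_mod_cast hn
  have h1 := intervalIntegral.sum_integral_adjacent_intervals (μ := volume)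
    (f := fun u => max (G u) 0) (a := fun m : ℕ => (m : ℝ) / n) (n := n)
    (fun k _ => Continuous.intervalIntegrable (by fun_prop) _ _)
  have e0 : ((0 : ℕ) : ℝ) / n = 0 := by simp
  have e1 : (n : ℝ) / n = 1 := div_self hn'.ne'
  rw [e0, e1] at h1
  rw [← h1]
  have h2 : ∀ m ∈ range n, ∫ u in ((m : ℝ) / n)..((m + 1 : ℕ) : ℝ) / n, max (G u) 0
      ≤ 1 / n * (max (G (m / n)) 0 + max (G ((m + 1 : ℕ) / n)) 0) / 2 + M * (1 / n) ^ 3 / 12 := by
    intro m _
    have h3 := cell G hG M hM hconv ((m : ℝ) / n) (1 / n) (by positivity)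
    have e2 : (m : ℝ) / n + 1 / n = ((m + 1 : ℕ) : ℝ) / n := by push_cast; ring
    rw [e2] at h3
    exact h3
  refine le_trans (Finset.sum_le_sum h2) (le_of_eq ?_)
  rw [Finset.sum_add_distrib, Finset.sum_const, card_range, nsmul_eq_mul, Finset.sum_div]
  congr 1
  · refine Finset.sum_congr rfl fun m _ => ?_
    field_simp
  · field_simp

/-- Convexity of a trigonometric function plus a parabola. -/
theorem convex_trig (ξ a b ρ : ℝ) (hρ : 0 ≤ ρ) (h : a ^ 2 + b ^ 2 ≤ ρ ^ 2) :
    ConvexOn ℝ Set.univ (fun u => a * Real.cos (ξ * u) + b * Real.sin (ξ * u)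
      + ρ * ξ ^ 2 / 2 * u ^ 2) := by
  have hd : ∀ u : ℝ, HasDerivAt (fun u => a * Real.cos (ξ * u) + b * Real.sin (ξ * u)
      + ρ * ξ ^ 2 / 2 * u ^ 2) (-(a * ξ) * Real.sin (ξ * u) + b * ξ * Real.cos (ξ * u)
      + ρ * ξ ^ 2 * u) u := by
    intro u
    have d0 : HasDerivAt (fun u : ℝ => ξ * u) ξ u := by
      simpa using (hasDerivAt_id u).const_mul ξ
    have d1 := ((d0.cos.const_mul a).add (d0.sin.const_mul b)).add
      (((hasDerivAt_id u).pow 2).const_mul (ρ * ξ ^ 2 / 2))
    refine d1.congr_deriv ?_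
    simp
    ring
  have hd2 : ∀ u : ℝ, HasDerivAt (fun u => -(a * ξ) * Real.sin (ξ * u) + b * ξ * Real.cos (ξ * u)
      + ρ * ξ ^ 2 * u) (ξ ^ 2 * (ρ - (a * Real.cos (ξ * u) + b * Real.sin (ξ * u)))) u := by
    intro u
    have d0 : HasDerivAt (fun u : ℝ => ξ * u) ξ u := by
      simpa using (hasDerivAt_id u).const_mul ξ
    have d1 := ((d0.sin.const_mul (-(a * ξ))).add (d0.cos.const_mul (b * ξ))).add
      ((hasDerivAt_id u).const_mul (ρ * ξ ^ 2))
    refine d1.congr_deriv ?_
    simp
    ring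
  have hder : deriv (fun u => a * Real.cos (ξ * u) + b * Real.sin (ξ * u)
      + ρ * ξ ^ 2 / 2 * u ^ 2) = fun u => -(a * ξ) * Real.sin (ξ * u) + b * ξ * Real.cos (ξ * u)
      + ρ * ξ ^ 2 * u := funext fun u => (hd u).deriv
  apply MonotoneOn.convexOn_of_deriv convex_univ
  · exact fun u _ => (hd u).continuousAt.continuousWithinAt
  · exact fun u _ => (hd u).differentiableAt.differentiableWithinAt
  · rw [hder]
    apply Monotone.monotoneOn
    apply monotone_of_deriv_nonneg
    · exact fun u => (hd2 u).differentiableAt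
    · intro u
      rw [(hd2 u).deriv]
      apply mul_nonneg (sq_nonneg _)
      have h1 := Real.sin_sq_add_cos_sq (ξ * u)
      have h2 : (a * Real.cos (ξ * u) + b * Real.sin (ξ * u)) ^ 2 ≤ ρ ^ 2 := by
        nlinarith [sq_nonneg (a * Real.sin (ξ * u) - b * Real.cos (ξ * u))]
      have h3 := abs_le_of_sq_le_sq h2 hρ
      linarith [(abs_le.1 h3).2]

end Pool.Agent.TH92.SymCol
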