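import Pool.Agent.TH92.SymCol.Defs

set_option autoImplicit false

/-!
# Lower bounds for `ms([0,1], r)` from Fourier coefficients
-/

namespace Pool.Agent.TH92.SymCol

open MeasureTheory Set

/-- The points `x ∈ E` with `s - x ∈ E`. -/
def refl (E : Set ℝ) (s : ℝ) : Set ℝ := E ∩ {x | s - x ∈ E}

theorem measurableSet_refl {E : Set ℝ} (hE : MeasurableSet E) (s : ℝ) :
    MeasurableSet (refl E s) :=
  hE.inter ((measurable_const.sub measurable_id) hE)

theorem lintegral_conv {E : Set ℝ} (hE : MeasurableSet E) (k : ℝ → ENNReal) (hk : Measurable k) :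
    ∫⁻ x in E, ∫⁻ y in E, k (x + y) = ∫⁻ s, k s * volume (refl E s) := by
  have e1 : ∀ x : ℝ, ∫⁻ y in E, k (x + y)
      = ∫⁻ s, E.indicator (fun _ => (1 : ENNReal)) (s - x) * k s := by
    intro x
    rw [← lintegral_indicator hE]
    rw [← lintegral_sub_right_eq_self _ x]
    refine lintegral_congr fun s => ?_
    by_cases h : s - x ∈ E
    · simp [h]
    · simp [h]
  rw [← lintegral_indicator hE]
  have e2 : ∀ x : ℝ, E.indicator (fun x => ∫⁻ y in E, k (x + y)) x
      = ∫⁻ s, E.indicator (fun _ => (1 : ENNReal)) x *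
        (E.indicator (fun _ => (1 : ENNReal)) (s - x) * k s) := by
    intro x
    by_cases h : x ∈ E
    · simp only [h, indicator_of_mem, one_mul]
      exact e1 x
    · simp [h]
  rw [lintegral_congr e2]
  have hm1 : Measurable (E.indicator (fun _ => (1 : ENNReal))) :=
    measurable_const.indicator hE
  rw [lintegral_lintegral_swap]
  · refine lintegral_congr fun s => ?_
    have e3 : ∀ x : ℝ, E.indicator (fun _ => (1 : ENNReal)) x *
        (E.indicator (fun _ => (1 : ENNReal)) (s - x) * k s)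
        = k s * (refl E s).indicator (fun _ => (1 : ENNReal)) x := by
      intro x
      by_cases h : x ∈ E <;> by_cases h' : s - x ∈ E <;> simp [refl, h, h']
    rw [lintegral_congr e3, lintegral_const_mul _ (measurable_const.indicator
      (measurableSet_refl hE s)), lintegral_indicator (measurableSet_refl hE s)]
    simp
  · refine Measurable.aemeasurable ?_
    have h2 : Measurable fun z : ℝ × ℝ => E.indicator (fun _ => (1 : ENNReal)) z.1 :=
      hm1.comp measurable_fst
    have h3 : Measurable fun z : ℝ × ℝ => E.indicator (fun _ => (1 : ENNReal)) (z.2 - z.1) :=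
      hm1.comp (measurable_snd.sub measurable_fst)
    have h4 : Measurable fun z : ℝ × ℝ => k z.2 := hk.comp measurable_snd
    exact h2.mul (h3.mul h4)

theorem lintegral_conv_le {E : Set ℝ} (hE : MeasurableSet E) (h01 : E ⊆ Icc (0 : ℝ) 1)
    (k : ℝ → ENNReal) (hk : Measurable k) (H : ENNReal) (hH : ∀ s, volume (refl E s) ≤ H) :
    ∫⁻ x in E, ∫⁻ y in E, k (x + y) ≤ (∫⁻ s in Icc (0 : ℝ) 2, k s) * H := by
  rw [lintegral_conv hE k hk, ← lintegral_mul_const _ hk,
    ← lintegral_indicator measurableSet_Icc]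
  refine lintegral_mono fun s => ?_
  by_cases hs : s ∈ Icc (0 : ℝ) 2
  · rw [indicator_of_mem hs]
    gcongr
    exact hH s
  · have : refl E s = ∅ := by
      rw [eq_empty_iff_forall_notMem]
      rintro x ⟨hx1, hx2⟩
      apply hs
      have h1 := h01 hx1
      have h2 := h01 hx2
      simp only [mem_Icc] at h1 h2 ⊢
      constructor <;> linarith [h1.1, h1.2, h2.1, h2.2]
    simp [this]

/-- The double integral of a trigonometric kernel. -/
theorem integral_cos_prod {E : Set ℝ} (ξ χ : ℝ) (hfin : volume E < ⊤) :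
    ∫ z : ℝ × ℝ, Real.cos (ξ * (z.1 + z.2 - 1) - χ) ∂((volume.restrict E).prod (volume.restrict E))
      = Real.cos χ * ((∫ x in E, Real.cos (ξ * (x - 1 / 2))) ^ 2
          - (∫ x in E, Real.sin (ξ * (x - 1 / 2))) ^ 2)
        + Real.sin χ * (2 * (∫ x in E, Real.cos (ξ * (x - 1 / 2))) *
          ∫ x in E, Real.sin (ξ * (x - 1 / 2))) := by
  have : IsFiniteMeasure (volume.restrict E) := ⟨by simpa using hfin⟩
  have hc : Integrable (fun x : ℝ => Real.cos (ξ * (x - 1 / 2))) (volume.restrict E) := by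
    refine Integrable.of_bound (C := 1) (by fun_prop) ?_
    exact Filter.Eventually.of_forall fun x => by
      rw [Real.norm_eq_abs]; exact Real.abs_cos_le_one _
  have hs : Integrable (fun x : ℝ => Real.sin (ξ * (x - 1 / 2))) (volume.restrict E) := by
    refine Integrable.of_bound (C := 1) (by fun_prop) ?_
    exact Filter.Eventually.of_forall fun x => by
      rw [Real.norm_eq_abs]; exact Real.abs_sin_le_one _
  have e : ∀ z : ℝ × ℝ, Real.cos (ξ * (z.1 + z.2 - 1) - χ)
      = Real.cos χ * (Real.cos (ξ * (z.1 - 1 / 2)) * Real.cos (ξ * (z.2 - 1 / 2))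
          - Real.sin (ξ * (z.1 - 1 / 2)) * Real.sin (ξ * (z.2 - 1 / 2)))
        + Real.sin χ * (Real.sin (ξ * (z.1 - 1 / 2)) * Real.cos (ξ * (z.2 - 1 / 2))
          + Real.cos (ξ * (z.1 - 1 / 2)) * Real.sin (ξ * (z.2 - 1 / 2))) := by
    intro z
    have : ξ * (z.1 + z.2 - 1) - χ = (ξ * (z.1 - 1 / 2) + ξ * (z.2 - 1 / 2)) - χ := by ring
    rw [this, Real.cos_sub, Real.cos_add, Real.sin_add]
    ring
  have hcc := hc.mul_prod hc
  have hss := hs.mul_prod hs
  have hsc := hs.mul_prod hc
  have hcs := hc.mul_prod hs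
  have h1 : Integrable (fun z : ℝ × ℝ =>
      Real.cos (ξ * (z.1 - 1 / 2)) * Real.cos (ξ * (z.2 - 1 / 2))
        - Real.sin (ξ * (z.1 - 1 / 2)) * Real.sin (ξ * (z.2 - 1 / 2)))
      ((volume.restrict E).prod (volume.restrict E)) := hcc.sub hss
  have h2 : Integrable (fun z : ℝ × ℝ =>
      Real.sin (ξ * (z.1 - 1 / 2)) * Real.cos (ξ * (z.2 - 1 / 2))
        + Real.cos (ξ * (z.1 - 1 / 2)) * Real.sin (ξ * (z.2 - 1 / 2)))
      ((volume.restrict E).prod (volume.restrict E)) := hsc.add hcs
  rw [integral_congr_ae (Filter.Eventually.of_forall e)]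
  rw [integral_add (h1.const_mul _) (h2.const_mul _),
    integral_const_mul, integral_const_mul, integral_sub hcc hss, integral_add hsc hcs]
  have i1 := integral_prod_mul (μ := volume.restrict E) (ν := volume.restrict E)
    (fun x : ℝ => Real.cos (ξ * (x - 1 / 2))) (fun x : ℝ => Real.cos (ξ * (x - 1 / 2)))
  have i2 := integral_prod_mul (μ := volume.restrict E) (ν := volume.restrict E)
    (fun x : ℝ => Real.sin (ξ * (x - 1 / 2))) (fun x : ℝ => Real.sin (ξ * (x - 1 / 2)))
  have i3 := integral_prod_mul (μ := volume.restrict E) (ν := volume.restrict E)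
    (fun x : ℝ => Real.sin (ξ * (x - 1 / 2))) (fun x : ℝ => Real.cos (ξ * (x - 1 / 2)))
  have i4 := integral_prod_mul (μ := volume.restrict E) (ν := volume.restrict E)
    (fun x : ℝ => Real.cos (ξ * (x - 1 / 2))) (fun x : ℝ => Real.sin (ξ * (x - 1 / 2)))
  rw [i1, i2, i3, i4]
  ring

variable {ι : Type*} [Fintype ι]

/-- The kernel with frequencies `ξ`, weights `p` and phases `χ`. -/
noncomputable def ker (ξ p χ : ι → ℝ) (s : ℝ) : ℝ :=
  ∑ k, p k * (Real.cos (χ k) * Real.cos (ξ k * (s - 1) - χ k))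

theorem continuous_ker (ξ p χ : ι → ℝ) : Continuous (ker ξ p χ) := by
  unfold ker
  fun_prop

theorem abs_ker_le (ξ p χ : ι → ℝ) (s : ℝ) : |ker ξ p χ s| ≤ ∑ k, |p k| := by
  unfold ker
  refine (Finset.abs_sum_le_sum_abs _ _).trans (Finset.sum_le_sum fun k _ => ?_)
  rw [abs_mul, abs_mul]
  have h1 := Real.abs_cos_le_one (χ k)
  have h2 := Real.abs_cos_le_one (ξ k * (s - 1) - χ k)
  have h3 : |Real.cos (χ k)| * |Real.cos (ξ k * (s - 1) - χ k)| ≤ 1 :=
    mul_le_one₀ h1 (abs_nonneg _) h2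
  nlinarith [abs_nonneg (p k)]

/-- The weighted sum of squares of the centred cosine coefficients of `E`. -/
theorem sum_sq_le {E : Set ℝ} (hE : MeasurableSet E) (h01 : E ⊆ Icc (0 : ℝ) 1)
    (ξ p : ι → ℝ) (C H : ℝ) (hC0 : 0 ≤ C) (hH0 : 0 ≤ H)
    (hC : ∀ χ : ι → ℝ, ∫⁻ s in Icc (0 : ℝ) 2, ENNReal.ofReal (ker ξ p χ s) ≤ ENNReal.ofReal C)
    (hH : ∀ s, volume (refl E s) ≤ ENNReal.ofReal H) :
    ∑ k, p k * (∫ x in E, Real.cos (ξ k * (x - 1 / 2))) ^ 2 ≤ C * H := by
  have hfin : volume E < ⊤ := lt_of_le_of_lt (measure_mono h01) (by simp)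
  have : IsFiniteMeasure (volume.restrict E) := ⟨by simpa using hfin⟩
  -- phases
  have hph : ∀ k, ∃ χ : ℝ, (∫ x in E, Real.cos (ξ k * (x - 1 / 2))) ^ 2
      = Real.cos χ * ∫ z : ℝ × ℝ, Real.cos (ξ k * (z.1 + z.2 - 1) - χ)
          ∂((volume.restrict E).prod (volume.restrict E)) := by
    intro k
    set a := ∫ x in E, Real.cos (ξ k * (x - 1 / 2)) with ha
    set d := ∫ x in E, Real.sin (ξ k * (x - 1 / 2)) with hd
    refine ⟨Complex.arg ⟨a, d⟩, ?_⟩
    rw [integral_cos_prod (ξ k) _ hfin, ← ha, ← hd]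
    have h1 : a = ‖(⟨a, d⟩ : ℂ)‖ * Real.cos (Complex.arg ⟨a, d⟩) := by
      rw [Complex.norm_mul_cos_arg]
    have h2 : d = ‖(⟨a, d⟩ : ℂ)‖ * Real.sin (Complex.arg ⟨a, d⟩) := by
      rw [Complex.norm_mul_sin_arg]
    generalize ‖(⟨a, d⟩ : ℂ)‖ = ρ at h1 h2
    generalize Complex.arg ⟨a, d⟩ = t at h1 h2 ⊢
    have h3 := Real.sin_sq_add_cos_sq t
    have h4 : Real.sin t ^ 2 = 1 - Real.cos t ^ 2 := by linarith
    rw [h1, h2]
    have : Real.cos t * (Real.cos t * ((ρ * Real.cos t) ^ 2 - (ρ * Real.sin t) ^ 2)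
        + Real.sin t * (2 * (ρ * Real.cos t) * (ρ * Real.sin t)))
        = ρ ^ 2 * Real.cos t ^ 2 * (Real.cos t ^ 2 + Real.sin t ^ 2) := by ring
    rw [this, h4]
    ring
  choose χ hχ using hph
  have hint : ∀ k, Integrable (fun z : ℝ × ℝ => Real.cos (ξ k * (z.1 + z.2 - 1) - χ k))
      ((volume.restrict E).prod (volume.restrict E)) := by
    intro k
    refine Integrable.of_bound (C := 1) (by fun_prop) ?_
    exact Filter.Eventually.of_forall fun x => by
      rw [Real.norm_eq_abs]; exact Real.abs_cos_le_one _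
  have hsum : ∑ k, p k * (∫ x in E, Real.cos (ξ k * (x - 1 / 2))) ^ 2
      = ∫ z : ℝ × ℝ, ker ξ p χ (z.1 + z.2)
          ∂((volume.restrict E).prod (volume.restrict E)) := by
    unfold ker
    rw [integral_finsetSum _ fun k _ => ((hint k).const_mul _).const_mul _]
    refine Finset.sum_congr rfl fun k _ => ?_
    rw [hχ k, integral_const_mul, integral_const_mul]
  rw [hsum]
  have hb : Integrable (fun z : ℝ × ℝ => max (ker ξ p χ (z.1 + z.2)) 0)
      ((volume.restrict E).prod (volume.restrict E)) := by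
    refine Integrable.of_bound (C := ∑ k, |p k|) ?_ ?_
    · exact (((continuous_ker ξ p χ).comp (by fun_prop)).max
        continuous_const).aestronglyMeasurable
    · refine Filter.Eventually.of_forall fun z => ?_
      rw [Real.norm_eq_abs, abs_of_nonneg (le_max_right _ _)]
      exact max_le (le_trans (le_abs_self _) (abs_ker_le ξ p χ _))
        (Finset.sum_nonneg fun k _ => abs_nonneg _)
  have ha : Integrable (fun z : ℝ × ℝ => ker ξ p χ (z.1 + z.2))
      ((volume.restrict E).prod (volume.restrict E)) := by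
    refine Integrable.of_bound (C := ∑ k, |p k|) ?_ ?_
    · exact ((continuous_ker ξ p χ).comp (by fun_prop)).aestronglyMeasurable
    · exact Filter.Eventually.of_forall fun z => by
        rw [Real.norm_eq_abs]; exact abs_ker_le ξ p χ _
  refine le_trans (integral_mono ha hb fun z => le_max_left _ _) ?_
  rw [← ENNReal.ofReal_le_ofReal_iff (mul_nonneg hC0 hH0)]
  rw [ofReal_integral_eq_lintegral_ofReal hb (Filter.Eventually.of_forall fun z =>
    le_max_right _ _)]
  rw [lintegral_prod _ (by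
    exact (((continuous_ker ξ p χ).comp (by fun_prop)).max
        continuous_const).measurable.ennreal_ofReal.aemeasurable)]
  have hk : Measurable fun s : ℝ => ENNReal.ofReal (max (ker ξ p χ s) 0) :=
    ((continuous_ker ξ p χ).max continuous_const).measurable.ennreal_ofReal
  refine le_trans (lintegral_conv_le hE h01 _ hk _ hH) ?_
  rw [ENNReal.ofReal_mul hC0]
  gcongr
  refine le_trans (le_of_eq ?_) (hC χ)
  refine lintegral_congr fun s => ?_
  rcases le_total (ker ξ p χ s) 0 with h | h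
  · rw [max_eq_right h, ENNReal.ofReal_of_nonpos h, ENNReal.ofReal_zero]
  · rw [max_eq_left h]

end Pool.Agent.TH92.SymCol
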