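import Pool.Agent.TH92.SymCol.Lower

set_option autoImplicit false

/-!
# The lower bound `ms([0,1], r) ≥ (∑ p k S k ^ 2) / (C r ^ 2)`
-/

namespace Pool.Agent.TH92.SymCol

open MeasureTheory Set

variable {ι : Type*} [Fintype ι]

theorem isSymm_refl (E : Set ℝ) (s : ℝ) : IsSymm (refl E s) := by
  refine ⟨s / 2, ?_⟩
  ext x
  constructor
  · rintro ⟨h1, h2⟩
    refine ⟨s - x, ⟨h2, ?_⟩, by ring⟩
    simpa using h1
  · rintro ⟨y, ⟨h1, h2⟩, rfl⟩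
    have e : 2 * (s / 2) - y = s - y := by ring
    simp only [e]
    exact ⟨h2, by simpa using h1⟩

/-- In every measurable `r`-colouring of the unit interval, some monochromatic set
`E ∩ (s - E)` has measure at least `ε`, for each `ε < Q / (C r²)`. -/
theorem exists_refl (ξ p : ι → ℝ) (C : ℝ) (hC0 : 0 < C) (hp : ∀ k, 0 ≤ p k)
    (hC : ∀ χ : ι → ℝ, ∫⁻ s in Icc (0 : ℝ) 2, ENNReal.ofReal (ker ξ p χ s) ≤ ENNReal.ofReal C)
    (r : ℕ) (ε : ℝ) (hε : 0 < ε)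
    (hlt : C * r ^ 2 * ε < ∑ k, p k * (∫ x in Icc (0 : ℝ) 1, Real.cos (ξ k * (x - 1 / 2))) ^ 2)
    (col : ℝ → Fin r) (hcol : IsColouring r col) :
    ∃ A : Set ℝ, A ⊆ Set.Icc (0 : ℝ) 1 ∧ NullMeasurableSet A volume ∧ IsSymm A ∧
      (∃ i : Fin r, ∀ t ∈ A, col t = i) ∧ ENNReal.ofReal ε ≤ volume A := by
  by_contra hcon
  have hE : ∀ i : Fin r, ∃ E ⊆ {t | t ∈ Set.Icc (0 : ℝ) 1 ∧ col t = i}, MeasurableSet E ∧
      E =ᵐ[volume] {t | t ∈ Set.Icc (0 : ℝ) 1 ∧ col t = i} :=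
    fun i => (hcol i).exists_measurable_subset_ae_eq
  choose E hE1 hE2 hE3 using hE
  have h01 : ∀ i, E i ⊆ Icc (0 : ℝ) 1 := fun i x hx => (hE1 i hx).1
  have hsmall : ∀ i s, volume (refl (E i) s) ≤ ENNReal.ofReal ε := by
    intro i s
    by_contra hbig
    apply hcon
    refine ⟨refl (E i) s, fun x hx => h01 i hx.1, (measurableSet_refl (hE2 i) s).nullMeasurableSet,
      isSymm_refl _ _, ⟨i, fun t ht => (hE1 i ht.1).2⟩, ?_⟩
    exact (not_le.1 hbig).le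
  have h1 : ∀ i, ∑ k, p k * (∫ x in E i, Real.cos (ξ k * (x - 1 / 2))) ^ 2 ≤ C * ε :=
    fun i => sum_sq_le (hE2 i) (h01 i) ξ p C ε hC0.le hε.le hC (hsmall i)
  -- disjointness and covering
  have hdisj : Pairwise (Function.onFun Disjoint E) := by
    intro i j hij
    rw [Function.onFun, Set.disjoint_left]
    intro x hx hx'
    exact hij ((hE1 i hx).2.symm.trans (hE1 j hx').2)
  have hcov : (⋃ i, E i) =ᵐ[volume] Icc (0 : ℝ) 1 := by
    have h2 : (⋃ i, E i) =ᵐ[volume] ⋃ i, {t | t ∈ Set.Icc (0 : ℝ) 1 ∧ col t = i} :=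
      Filter.EventuallyEq.countable_iUnion hE3
    have h3 : (⋃ i, {t | t ∈ Set.Icc (0 : ℝ) 1 ∧ col t = i}) = Icc (0 : ℝ) 1 := by
      ext t
      rw [mem_iUnion]
      exact ⟨fun ⟨_, h⟩ => h.1, fun h => ⟨col t, h, rfl⟩⟩
    rw [h3] at h2
    exact h2
  have hS : ∀ k, ∫ x in Icc (0 : ℝ) 1, Real.cos (ξ k * (x - 1 / 2))
      = ∑ i, ∫ x in E i, Real.cos (ξ k * (x - 1 / 2)) := by
    intro k
    rw [← setIntegral_congr_set hcov]
    refine integral_iUnion_fintype hE2 hdisj fun i => ?_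
    have hfin : volume (E i) < ⊤ := lt_of_le_of_lt (measure_mono (h01 i)) (by simp)
    have : IsFiniteMeasure (volume.restrict (E i)) := ⟨by simpa using hfin⟩
    refine Integrable.of_bound (C := 1) (by fun_prop) ?_
    exact Filter.Eventually.of_forall fun x => by
      rw [Real.norm_eq_abs]; exact Real.abs_cos_le_one _
  have h2 : ∑ k, p k * (∫ x in Icc (0 : ℝ) 1, Real.cos (ξ k * (x - 1 / 2))) ^ 2
      ≤ ∑ k, p k * (r * ∑ i, (∫ x in E i, Real.cos (ξ k * (x - 1 / 2))) ^ 2) := by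
    refine Finset.sum_le_sum fun k _ => mul_le_mul_of_nonneg_left ?_ (hp k)
    rw [hS k]
    have := sq_sum_le_card_mul_sum_sq (s := (Finset.univ : Finset (Fin r)))
      (f := fun i => ∫ x in E i, Real.cos (ξ k * (x - 1 / 2)))
    simpa using this
  have h3 : ∑ k, p k * (r * ∑ i, (∫ x in E i, Real.cos (ξ k * (x - 1 / 2))) ^ 2)
      = r * ∑ i, ∑ k, p k * (∫ x in E i, Real.cos (ξ k * (x - 1 / 2))) ^ 2 := by
    rw [Finset.sum_comm, Finset.mul_sum]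
    refine Finset.sum_congr rfl fun k _ => ?_
    rw [Finset.mul_sum, Finset.mul_sum, Finset.mul_sum]
    refine Finset.sum_congr rfl fun i _ => ?_
    ring
  have h4 : ∑ i, ∑ k, p k * (∫ x in E i, Real.cos (ξ k * (x - 1 / 2))) ^ 2 ≤ r * (C * ε) := by
    calc _ ≤ ∑ _i : Fin r, C * ε := Finset.sum_le_sum fun i _ => h1 i
      _ = r * (C * ε) := by simp
  have h5 : (r : ℝ) * ∑ i, ∑ k, p k * (∫ x in E i, Real.cos (ξ k * (x - 1 / 2))) ^ 2
      ≤ r * (r * (C * ε)) := mul_le_mul_of_nonneg_left h4 (Nat.cast_nonneg _)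
  rw [h3] at h2
  nlinarith

/-- The lower bound for `ms`. -/
theorem ms_ge (ξ p : ι → ℝ) (C : ℝ) (hC0 : 0 < C) (hp : ∀ k, 0 ≤ p k)
    (hC : ∀ χ : ι → ℝ, ∫⁻ s in Icc (0 : ℝ) 2, ENNReal.ofReal (ker ξ p χ s) ≤ ENNReal.ofReal C)
    (r : ℕ) (hr : 0 < r) :
    (∑ k, p k * (∫ x in Icc (0 : ℝ) 1, Real.cos (ξ k * (x - 1 / 2))) ^ 2) / C
      ≤ (r : ℝ) ^ 2 * ms r := by
  set Q := ∑ k, p k * (∫ x in Icc (0 : ℝ) 1, Real.cos (ξ k * (x - 1 / 2))) ^ 2 with hQ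
  have hr' : (0 : ℝ) < r := by exact_mod_cast hr
  have hQ0 : 0 ≤ Q := Finset.sum_nonneg fun k _ => mul_nonneg (hp k) (sq_nonneg _)
  have hbdd : BddAbove {ε : ℝ | 0 < ε ∧ ∀ χ : ℝ → Fin r, IsColouring r χ →
      ∃ A : Set ℝ, A ⊆ Set.Icc (0 : ℝ) 1 ∧ NullMeasurableSet A volume ∧ IsSymm A ∧
      (∃ i : Fin r, ∀ t ∈ A, χ t = i) ∧ ENNReal.ofReal ε ≤ volume A} := by
    refine ⟨1, ?_⟩
    rintro ε ⟨hε, h⟩
    obtain ⟨A, hA, -, -, -, hv⟩ := h (fun _ => ⟨0, hr⟩) (by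
      intro i
      exact (measurableSet_Icc.inter (MeasurableSet.const _)).nullMeasurableSet)
    have h1 : ENNReal.ofReal ε ≤ ENNReal.ofReal 1 := by
      refine hv.trans ((measure_mono hA).trans ?_)
      simp
    rwa [ENNReal.ofReal_le_ofReal_iff (by norm_num)] at h1
  rw [div_le_iff₀ hC0]
  refine le_of_forall_pos_lt_add fun δ hδ => ?_
  -- take ε slightly below Q / (C r²)
  by_contra hcon
  push Not at hcon
  -- hcon : r^2 * ms r * C + δ ≤ Q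
  set ε := ms r + δ / (2 * (C * (r : ℝ) ^ 2)) with hεd
  have hms0 : 0 ≤ ms r := Real.sSup_nonneg fun _ h => h.1.le
  have hadd : 0 < δ / (2 * (C * (r : ℝ) ^ 2)) := by positivity
  have hε : 0 < ε := by rw [hεd]; linarith
  have hlt : C * r ^ 2 * ε < Q := by
    have : C * (r : ℝ) ^ 2 * ε = (r : ℝ) ^ 2 * ms r * C + δ / 2 := by
      rw [hεd]; field_simp
    rw [this]; linarith
  have hmem := le_csSup hbdd ⟨hε, fun χ hχ => exists_refl ξ p C hC0 hp hC r ε hε hlt χ hχ⟩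
  have : ε ≤ ms r := hmem
  rw [hεd] at this
  linarith

end Pool.Agent.TH92.SymCol
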