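import Pool.Agent.TH92.SymCol.Num
import Pool.Agent.TH92.SymCol.Grid
import Pool.Agent.TH92.SymCol.LowerMain

set_option autoImplicit false

/-!
# The lower bound from the frequencies `0`, `3.580`, `9.177`
-/

namespace Pool.Agent.TH92.SymCol

open MeasureTheory Finset Pool.Agent.TH92.SymCol.Num

/-- First time step. -/
noncomputable def d1 : ℝ := Real.arcsin (2737 / 76465)

/-- Second time step. -/
noncomputable def d2 : ℝ := Real.arcsin (3528 / 38497)

theorem sin_d1 : Real.sin d1 = 2737 / 76465 := by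
  unfold d1; rw [Real.sin_arcsin] <;> norm_num

theorem cos_d1 : Real.cos d1 = 76416 / 76465 := by
  unfold d1
  rw [Real.cos_arcsin, show (1 : ℝ) - (2737 / 76465) ^ 2 = (76416 / 76465) ^ 2 by norm_num,
    Real.sqrt_sq (by norm_num)]

theorem sin_d2 : Real.sin d2 = 3528 / 38497 := by
  unfold d2; rw [Real.sin_arcsin] <;> norm_num

theorem cos_d2 : Real.cos d2 = 38335 / 38497 := by
  unfold d2
  rw [Real.cos_arcsin, show (1 : ℝ) - (3528 / 38497) ^ 2 = (38335 / 38497) ^ 2 by norm_num,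
    Real.sqrt_sq (by norm_num)]

theorem d1_pos : 0 < d1 := by unfold d1; rw [Real.arcsin_pos]; norm_num

theorem d2_pos : 0 < d2 := by unfold d2; rw [Real.arcsin_pos]; norm_num

theorem d1_le : d1 ≤ 2737 / 76416 := by
  have h1 : d1 < Real.pi / 2 := by unfold d1; rw [Real.arcsin_lt_pi_div_two]; norm_num
  have h2 := Real.le_tan d1_pos.le h1
  rw [Real.tan_eq_sin_div_cos, sin_d1, cos_d1] at h2
  norm_num at h2 ⊢
  exact h2

theorem d2_le : d2 ≤ 3528 / 38335 := by
  have h1 : d2 < Real.pi / 2 := by unfold d2; rw [Real.arcsin_lt_pi_div_two]; norm_num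
  have h2 := Real.le_tan d2_pos.le h1
  rw [Real.tan_eq_sin_div_cos, sin_d2, cos_d2] at h2
  norm_num at h2 ⊢
  exact h2

theorem step_of_chk (C S D : ℤ) (c s : List ℤ) (n : ℕ)
    (h : allTo (chkStep C S D c s) n = true) : ∀ m < n,
    |c.getD (m + 1) 0 * D - (C * c.getD m 0 - S * s.getD m 0)| ≤ D ∧
      |s.getD (m + 1) 0 * D - (S * c.getD m 0 + C * s.getD m 0)| ≤ D := by
  intro m hm
  have h1 := (allTo_iff _ _).1 h m hm
  unfold chkStep at h1
  simp only [Bool.and_eq_true, decide_eq_true_eq] at h1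
  exact ⟨abs_le.2 ⟨h1.1.1.2, h1.1.1.1⟩, abs_le.2 ⟨h1.2, h1.1.2⟩⟩

theorem tab1 (m : ℕ) (hm : m ≤ 100) :
    |((c1L.getD m 0 : ℤ) : ℝ) - 100000000 * Real.cos (m * d1)| ≤ 2 * m ∧
      |((s1L.getD m 0 : ℤ) : ℝ) - 100000000 * Real.sin (m * d1)| ≤ 2 * m := by
  have h := table_accurate' d1 76416 2737 76465 100000000 (by norm_num)
    (by rw [cos_d1]; norm_num) (by rw [sin_d1]; norm_num) (fun m => c1L.getD m 0)
    (fun m => s1L.getD m 0) 100 rfl rfl (step_of_chk _ _ _ _ _ _ chk1) m hm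
  push_cast at h
  exact h

theorem tab2 (m : ℕ) (hm : m ≤ 100) :
    |((c2L.getD m 0 : ℤ) : ℝ) - 100000000 * Real.cos (m * d2)| ≤ 2 * m ∧
      |((s2L.getD m 0 : ℤ) : ℝ) - 100000000 * Real.sin (m * d2)| ≤ 2 * m := by
  have h := table_accurate' d2 38335 3528 38497 100000000 (by norm_num)
    (by rw [cos_d2]; norm_num) (by rw [sin_d2]; norm_num) (fun m => c2L.getD m 0)
    (fun m => s2L.getD m 0) 100 rfl rfl (step_of_chk _ _ _ _ _ _ chk2) m hm
  push_cast at h
  exact h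

theorem tabv (m : ℕ) (hm : m ≤ 32) :
    |((vcL.getD m 0 : ℤ) : ℝ) - 100000000 * Real.cos (m * beta)| ≤ 2 * m ∧
      |((vsL.getD m 0 : ℤ) : ℝ) - 100000000 * Real.sin (m * beta)| ≤ 2 * m := by
  have h := table_accurate' beta 99 20 101 100000000 (by norm_num)
    (by rw [cos_beta]; norm_num) (by rw [sin_beta]; norm_num) (fun m => vcL.getD m 0)
    (fun m => vsL.getD m 0) 32 rfl rfl (step_of_chk _ _ _ _ _ _ chkv) m hm
  push_cast at h
  exact h

theorem v_err (i : ℕ) (hi : i < 34) :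
    |(((V2.getD i 0).1 : ℤ) : ℝ) - 100000000000 * (1 + VA i)| ≤ 64320 ∧
      |(((V2.getD i 0).2 : ℤ) : ℝ) - 100000000000 * VB i| ≤ 64320 := by
  have h := (allTo_iff _ _).1 chkV i hi
  simp only [decide_eq_true_eq] at h
  rw [h]
  by_cases h33 : i < 33
  · obtain ⟨h1, h2⟩ := tabv i (by omega)
    have hi' : (i : ℝ) ≤ 32 := by exact_mod_cast (by omega : i ≤ 32)
    unfold VA VB
    rw [if_pos h33, if_pos h33]
    push_cast
    rw [abs_le] at h1 h2 ⊢
    rw [abs_le]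
    refine ⟨⟨?_, ?_⟩, ⟨?_, ?_⟩⟩ <;> linarith [h1.1, h1.2, h2.1, h2.2]
  · have : i = 33 := by omega
    subst this
    have e1 : vcL.getD 33 0 = 0 := rfl
    have e2 : vsL.getD 33 0 = 0 := rfl
    rw [e1, e2]
    unfold VA VB
    norm_num

theorem v_size (i : ℕ) (hi : i < 34) :
    |(((V2.getD i 0).1 : ℤ) : ℝ)| ≤ 200600000000 ∧
      |(((V2.getD i 0).2 : ℤ) : ℝ)| ≤ 100600000000 := by
  have h := (allTo_iff _ _).1 chkVb i hi
  simp only [Bool.and_eq_true, decide_eq_true_eq] at h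
  have h1 : |(V2.getD i 0).1| ≤ 200600000000 := abs_le.2 ⟨h.1.1.2, h.1.1.1⟩
  have h2 : |(V2.getD i 0).2| ≤ 100600000000 := abs_le.2 ⟨h.2, h.1.2⟩
  exact ⟨by exact_mod_cast h1, by exact_mod_cast h2⟩

theorem q_err (m : ℕ) (hm : m ≤ 100) :
    (|(((Q4.getD m 0).1 : ℤ) : ℝ) - 181700000000 * Real.cos (m * d1)| ≤ 363400 ∧
      |(((Q4.getD m 0).2.1 : ℤ) : ℝ) - 181700000000 * Real.sin (m * d1)| ≤ 363400) ∧
    (|(((Q4.getD m 0).2.2.1 : ℤ) : ℝ) - 84600000000 * Real.cos (m * d2)| ≤ 169200 ∧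
      |(((Q4.getD m 0).2.2.2 : ℤ) : ℝ) - 84600000000 * Real.sin (m * d2)| ≤ 169200) := by
  have h := (allTo_iff _ _).1 chkQ m (by omega)
  simp only [decide_eq_true_eq] at h
  rw [h]
  obtain ⟨h1, h2⟩ := tab1 m hm
  obtain ⟨h3, h4⟩ := tab2 m hm
  have hm' : (m : ℝ) ≤ 100 := by exact_mod_cast hm
  push_cast
  rw [abs_le] at h1 h2 h3 h4
  refine ⟨⟨?_, ?_⟩, ⟨?_, ?_⟩⟩ <;> rw [abs_le] <;> constructor <;>
    linarith [h1.1, h1.2, h2.1, h2.2, h3.1, h3.2, h4.1, h4.2]

theorem prod_err (x X y Y e f s t : ℝ) (h1 : |x - X| ≤ e) (h2 : |y - Y| ≤ f) (h3 : |x| ≤ s)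
    (h4 : |Y| ≤ t) : |x * y - X * Y| ≤ s * f + e * t := by
  have e1 : x * y - X * Y = x * (y - Y) + (x - X) * Y := by ring
  rw [e1]
  refine (abs_add_le _ _).trans ?_
  rw [abs_mul, abs_mul]
  have a1 := mul_le_mul h3 h2 (abs_nonneg _) ((abs_nonneg _).trans h3)
  have a2 := mul_le_mul h1 h4 (abs_nonneg _) ((abs_nonneg _).trans h1)
  linarith

/-- The vertex functions on the half window (`σ = ± 1`). -/
noncomputable def F (σ : ℝ) (i j : ℕ) (u : ℝ) : ℝ :=
  1 + (1817 / 2000 * (1 + VA i) * Real.cos (100 * d1 * u)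
      + σ * (1817 / 2000 * VB i) * Real.sin (100 * d1 * u))
    + (846 / 2000 * (1 + VA j) * Real.cos (100 * d2 * u)
      + σ * (846 / 2000 * VB j) * Real.sin (100 * d2 * u))

theorem continuous_F (σ : ℝ) (i j : ℕ) : Continuous (F σ i j) := by
  unfold F; fun_prop

theorem abs_scale (a c : ℝ) (ha : 0 ≤ a) (hc : |c| ≤ 1) : |a * c| ≤ a := by
  rw [abs_mul, abs_of_nonneg ha]
  nlinarith

/-- Grid values are bounded by the integer table. -/
theorem F_le (i j m : ℕ) (hi : i < 34) (hj : j < 34) (hm : m ≤ 100) :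
    20000000000000000000000 * (max (F 1 i j (m / (100 : ℕ))) 0
      + max (F (-1) i j (m / (100 : ℕ))) 0)
    ≤ gfun (V2.getD i 0) (V2.getD j 0) (Q4.getD m 0) + 390000000000000000 := by
  obtain ⟨ha, hb⟩ := v_err i hi
  obtain ⟨ha', hb'⟩ := v_err j hj
  obtain ⟨sa, sb⟩ := v_size i hi
  obtain ⟨sa', sb'⟩ := v_size j hj
  obtain ⟨⟨q1, q2⟩, ⟨q3, q4⟩⟩ := q_err m hm
  have p1 := prod_err _ _ _ _ _ _ _ _ ha q1 sa
    (abs_scale 181700000000 _ (by norm_num) (Real.abs_cos_le_one (m * d1)))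
  have p2 := prod_err _ _ _ _ _ _ _ _ hb q2 sb
    (abs_scale 181700000000 _ (by norm_num) (Real.abs_sin_le_one (m * d1)))
  have p3 := prod_err _ _ _ _ _ _ _ _ ha' q3 sa'
    (abs_scale 84600000000 _ (by norm_num) (Real.abs_cos_le_one (m * d2)))
  have p4 := prod_err _ _ _ _ _ _ _ _ hb' q4 sb'
    (abs_scale 84600000000 _ (by norm_num) (Real.abs_sin_le_one (m * d2)))
  rw [abs_le] at p1 p2 p3 p4
  have e1 : 100 * d1 * ((m : ℝ) / (100 : ℕ)) = m * d1 := by push_cast; ring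
  have e2 : 100 * d2 * ((m : ℝ) / (100 : ℕ)) = m * d2 := by push_cast; ring
  have hF : ∀ σ : ℝ, 20000000000000000000000 * F σ i j (m / (100 : ℕ))
      = 20000000000000000000000
        + (100000000000 * (1 + VA i) * (181700000000 * Real.cos (m * d1))
          + 100000000000 * (1 + VA j) * (84600000000 * Real.cos (m * d2)))
        + σ * (100000000000 * VB i * (181700000000 * Real.sin (m * d1))
          + 100000000000 * VB j * (84600000000 * Real.sin (m * d2))) := by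
    intro σ
    unfold F
    rw [e1, e2]
    ring
  set v := V2.getD i 0 with hv
  set w := V2.getD j 0 with hw
  set q := Q4.getD m 0 with hq
  have g1 : ((20000000000000000000000 + (v.1 * q.1 + w.1 * q.2.2.1)
      + (v.2 * q.2.1 + w.2 * q.2.2.2) : ℤ) : ℝ)
      ≤ ((20000000000000000000000 + (v.1 * q.1 + w.1 * q.2.2.1)
      + (v.2 * q.2.1 + w.2 * q.2.2.2) : ℤ).toNat : ℝ) := by
    exact_mod_cast Int.self_le_toNat _
  have g2 : ((20000000000000000000000 + (v.1 * q.1 + w.1 * q.2.2.1)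
      - (v.2 * q.2.1 + w.2 * q.2.2.2) : ℤ) : ℝ)
      ≤ ((20000000000000000000000 + (v.1 * q.1 + w.1 * q.2.2.1)
      - (v.2 * q.2.1 + w.2 * q.2.2.2) : ℤ).toNat : ℝ) := by
    exact_mod_cast Int.self_le_toNat _
  have m1 : 20000000000000000000000 * max (F 1 i j (m / (100 : ℕ))) 0
      ≤ ((20000000000000000000000 + (v.1 * q.1 + w.1 * q.2.2.1)
      + (v.2 * q.2.1 + w.2 * q.2.2.2) : ℤ).toNat : ℝ) + 195000000000000000 := by
    rw [mul_max_of_nonneg _ _ (by norm_num), mul_zero]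
    apply max_le
    · rw [hF]
      refine le_trans ?_ (add_le_add_left g1 _)
      push_cast
      linarith [p1.1, p1.2, p2.1, p2.2, p3.1, p3.2, p4.1, p4.2]
    · positivity
  have m2 : 20000000000000000000000 * max (F (-1) i j (m / (100 : ℕ))) 0
      ≤ ((20000000000000000000000 + (v.1 * q.1 + w.1 * q.2.2.1)
      - (v.2 * q.2.1 + w.2 * q.2.2.2) : ℤ).toNat : ℝ) + 195000000000000000 := by
    rw [mul_max_of_nonneg _ _ (by norm_num), mul_zero]
    apply max_le
    · rw [hF]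
      refine le_trans ?_ (add_le_add_left g2 _)
      push_cast
      linarith [p1.1, p1.2, p2.1, p2.2, p3.1, p3.2, p4.1, p4.2]
    · positivity
  rw [mul_add]
  unfold gfun
  push_cast
  linarith

theorem list_sum {α : Type*} (l : List α) (d : α) (f : α → ℕ) :
    (l.map f).sum = ∑ m ∈ range l.length, f (l.getD m d) := by
  induction l with
  | nil => simp
  | cons a l ih =>
    rw [List.map_cons, List.sum_cons, List.length_cons, Finset.sum_range_succ', ih, add_comm]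
    simp

theorem two_sum (g : ℕ → ℕ) (n : ℕ) :
    ∑ m ∈ range n, (g m + g (m + 1)) + g 0 + g n = 2 * ∑ m ∈ range (n + 1), g m := by
  induction n with
  | zero => simp; ring
  | succ n ih =>
    rw [Finset.sum_range_succ, Finset.sum_range_succ (fun m => g m) (n + 1)]
    omega

theorem main_sum (i j : ℕ) (hi : i < 34) (hj : j < 34) :
    ∑ m ∈ range 100, (gfun (V2.getD i 0) (V2.getD j 0) (Q4.getD m 0)
      + gfun (V2.getD i 0) (V2.getD j 0) (Q4.getD (m + 1) 0)) ≤ 8213470304637574000000000 := by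
  have hlen : V2.length = 34 := rfl
  have hlen' : Q4.length = 101 := rfl
  have hmem : ∀ k < 34, V2.getD k 0 ∈ V2 := by
    intro k hk
    rw [List.getD_eq_getElem _ _ (by rw [hlen]; exact hk)]
    exact List.getElem_mem _
  have h := chkMain
  rw [List.all_eq_true] at h
  have h1 := h _ (hmem i hi)
  rw [List.all_eq_true] at h1
  have h2 := Nat.le_of_ble_eq_true (h1 _ (hmem j hj))
  rw [list_sum Q4 0, hlen'] at h2
  have h3 : ∑ m ∈ range 100, (gfun (V2.getD i 0) (V2.getD j 0) (Q4.getD m 0)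
      + gfun (V2.getD i 0) (V2.getD j 0) (Q4.getD (m + 1) 0))
      + gfun (V2.getD i 0) (V2.getD j 0) (Q4.getD 0 0)
      + gfun (V2.getD i 0) (V2.getD j 0) (Q4.getD 100 0)
      = 2 * ∑ m ∈ range 101, gfun (V2.getD i 0) (V2.getD j 0) (Q4.getD m 0) :=
    two_sum (fun m => gfun (V2.getD i 0) (V2.getD j 0) (Q4.getD m 0)) 100
  omega

end Pool.Agent.TH92.SymCol
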