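import Mathlib

set_option autoImplicit false

/-!
# A random colouring with small self-correlations

Colour `0, …, M-1` independently, `k` getting colour `c` with probability `w k c`. With positive
probability, for every colour `j` and every `s`, the number of `k` with `k` and `s - k` both of
colour `j` is at most `∑ w k j * w (s-k) j + 2 ε M + 1`.
-/

namespace Pool.Agent.TH92.SymCol

open Finset

variable {M R : ℕ}

/-- Extension of a colouring of `Fin M` to `ℕ`. -/
def ext (M : ℕ) {R : ℕ} (c0 : Fin R) (χ : Fin M → Fin R) (m : ℕ) : Fin R :=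
  if h : m < M then χ ⟨m, h⟩ else c0

theorem ext_fin (c0 : Fin R) (χ : Fin M → Fin R) (m : Fin M) : ext M c0 χ (m : ℕ) = χ m := by
  simp [ext]

theorem sum_ind (w : ℕ → Fin R → ℝ) (h1 : ∀ k < M, ∑ c, w k c = 1) (c0 j : Fin R)
    (T : Finset ℕ) (hT : T ⊆ range M) :
    ∑ χ : Fin M → Fin R, (∏ k : Fin M, w k (χ k)) *
      ∏ m ∈ T, (if ext M c0 χ m = j then (1 : ℝ) else 0) = ∏ m ∈ T, w m j := by
  have hTM : range M ∩ T = T := Finset.inter_eq_right.2 hT
  have e1 : ∀ χ : Fin M → Fin R, ∏ m ∈ T, (if ext M c0 χ m = j then (1 : ℝ) else 0)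
      = ∏ m : Fin M, (if (m : ℕ) ∈ T then (if χ m = j then (1 : ℝ) else 0) else 1) := by
    intro χ
    have := Finset.prod_range (fun m => if m ∈ T then
      (if ext M c0 χ m = j then (1 : ℝ) else 0) else 1) (n := M)
    rw [Finset.prod_ite_mem, hTM] at this
    rw [this]
    refine Finset.prod_congr rfl fun m _ => ?_
    rw [ext_fin]
  have e2 : ∏ m ∈ T, w m j = ∏ m : Fin M, (if (m : ℕ) ∈ T then w m j else 1) := by
    have := Finset.prod_range (fun m => if m ∈ T then w m j else 1) (n := M)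
    rw [Finset.prod_ite_mem, hTM] at this
    rw [this]
  rw [e2]
  have e3 : ∀ m : Fin M, (if (m : ℕ) ∈ T then w m j else 1)
      = ∑ c : Fin R, w m c * (if (m : ℕ) ∈ T then (if c = j then (1 : ℝ) else 0) else 1) := by
    intro m
    split_ifs with h
    · simp
    · simp [h1 m m.2]
  rw [Finset.prod_congr rfl fun m _ => e3 m]
  rw [Finset.prod_univ_sum, Fintype.piFinset_univ]
  refine Finset.sum_congr rfl fun χ _ => ?_
  rw [e1, ← Finset.prod_mul_distrib]

theorem sum_one (w : ℕ → Fin R → ℝ) (h1 : ∀ k < M, ∑ c, w k c = 1) (c0 : Fin R) :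
    ∑ χ : Fin M → Fin R, (∏ k : Fin M, w k (χ k)) = 1 := by
  have := sum_ind w h1 c0 c0 ∅ (by simp)
  simpa using this

theorem sum_mgf (w : ℕ → Fin R → ℝ) (h1 : ∀ k < M, ∑ c, w k c = 1) (c0 j : Fin R)
    (s : ℕ) (K : Finset ℕ) (hK : ∀ k ∈ K, 2 * k < s ∧ s - k < M) (a : ℝ) :
    ∑ χ : Fin M → Fin R, (∏ k : Fin M, w k (χ k)) *
      ∏ k ∈ K, (1 + a * (if ext M c0 χ k = j ∧ ext M c0 χ (s - k) = j then (1 : ℝ) else 0))
      = ∏ k ∈ K, (1 + a * (w k j * w (s - k) j)) := by
  rw [Finset.prod_one_add]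
  have e1 : ∀ χ : Fin M → Fin R, (∏ k : Fin M, w k (χ k)) *
      ∏ k ∈ K, (1 + a * (if ext M c0 χ k = j ∧ ext M c0 χ (s - k) = j then (1 : ℝ) else 0))
      = ∑ S ∈ K.powerset, (∏ k : Fin M, w k (χ k)) *
        ∏ k ∈ S, (a * (if ext M c0 χ k = j ∧ ext M c0 χ (s - k) = j then (1 : ℝ) else 0)) := by
    intro χ
    rw [Finset.prod_one_add, Finset.mul_sum]
  rw [Finset.sum_congr rfl fun χ _ => e1 χ, Finset.sum_comm]
  refine Finset.sum_congr rfl fun S hS => ?_
  rw [mem_powerset] at hS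
  have hinj : Set.InjOn (fun k => s - k) (S : Set ℕ) := by
    intro x hx y hy hxy
    have hx' := hK x (hS hx)
    have hy' := hK y (hS hy)
    simp only at hxy
    omega
  have hdisj : Disjoint S (S.image fun k => s - k) := by
    rw [Finset.disjoint_left]
    intro x hx hx'
    rw [mem_image] at hx'
    obtain ⟨y, hy, hyx⟩ := hx'
    have h2 := hK x (hS hx)
    have h3 := hK y (hS hy)
    omega
  have e2 : ∀ χ : Fin M → Fin R,
      ∏ k ∈ S, (a * (if ext M c0 χ k = j ∧ ext M c0 χ (s - k) = j then (1 : ℝ) else 0))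
      = (∏ _k ∈ S, a) * ∏ m ∈ S ∪ S.image (fun k => s - k),
          (if ext M c0 χ m = j then (1 : ℝ) else 0) := by
    intro χ
    rw [Finset.prod_union hdisj, Finset.prod_image hinj, ← Finset.prod_mul_distrib,
      ← Finset.prod_mul_distrib]
    refine Finset.prod_congr rfl fun k _ => ?_
    by_cases p : ext M c0 χ k = j <;> by_cases q : ext M c0 χ (s - k) = j <;> simp [p, q]
  have hsub : S ∪ S.image (fun k => s - k) ⊆ range M := by
    intro x hx
    rw [mem_union, mem_image] at hx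
    rw [mem_range]
    rcases hx with hx | ⟨y, hy, rfl⟩
    · have := hK x (hS hx); omega
    · exact (hK y (hS hy)).2
  have e3 := sum_ind w h1 c0 j _ hsub
  rw [Finset.prod_union hdisj, Finset.prod_image hinj] at e3
  calc _ = ∑ χ : Fin M → Fin R, (∏ _k ∈ S, a) * ((∏ k : Fin M, w k (χ k)) *
        ∏ m ∈ S ∪ S.image (fun k => s - k), (if ext M c0 χ m = j then (1 : ℝ) else 0)) := by
        refine Finset.sum_congr rfl fun χ _ => ?_
        rw [e2]; ring
    _ = (∏ _k ∈ S, a) * ((∏ m ∈ S, w m j) * ∏ m ∈ S, w (s - m) j) := by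
        rw [← Finset.mul_sum, e3]
    _ = _ := by
        rw [← Finset.prod_mul_distrib, ← Finset.prod_mul_distrib]

/-- The number of `k ∈ K` such that `k` and `s - k` have colour `j`. -/
def cnt (c : ℕ → Fin R) (s : ℕ) (K : Finset ℕ) (j : Fin R) : ℕ :=
  (K.filter fun k => c k = j ∧ c (s - k) = j).card

theorem tail (w : ℕ → Fin R → ℝ) (h0 : ∀ k c, 0 ≤ w k c) (h1 : ∀ k < M, ∑ c, w k c = 1)
    (c0 j : Fin R) (s : ℕ) (K : Finset ℕ) (hK : ∀ k ∈ K, 2 * k < s ∧ s - k < M)
    (ε : ℝ) (hε : 0 < ε) (hε1 : ε ≤ 1) :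
    ∑ χ ∈ (univ : Finset (Fin M → Fin R)).filter
      (fun χ => ∑ k ∈ K, w k j * w (s - k) j + ε * M < cnt (ext M c0 χ) s K j),
      (∏ k : Fin M, w k (χ k)) ≤ Real.exp (-(ε ^ 2 * M / 4)) := by
  set μ := ∑ k ∈ K, w k j * w (s - k) j with hμ
  have hw1 : ∀ k < M, ∀ c, w k c ≤ 1 := by
    intro k hk c
    rw [← h1 k hk]
    exact Finset.single_le_sum (f := fun c => w k c) (fun c _ => h0 k c) (mem_univ c)
  have hμM : μ ≤ M := by
    have hKM : K ⊆ range M := by
      intro k hk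
      have := hK k hk
      rw [mem_range]; omega
    have hc : K.card ≤ M := by simpa using Finset.card_le_card hKM
    calc μ ≤ ∑ _k ∈ K, (1 : ℝ) := by
          refine Finset.sum_le_sum fun k hk => ?_
          have h2 := hK k hk
          exact mul_le_one₀ (hw1 k (by omega) j) (h0 _ _) (hw1 (s - k) h2.2 j)
      _ = K.card := by simp
      _ ≤ M := by exact_mod_cast hc
  have hμ0 : 0 ≤ μ := Finset.sum_nonneg fun k _ => mul_nonneg (h0 _ _) (h0 _ _)
  have hW : ∀ χ : Fin M → Fin R, 0 ≤ ∏ k : Fin M, w k (χ k) :=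
    fun χ => Finset.prod_nonneg fun k _ => h0 _ _
  set lam := ε / 2 with hlam
  have hlam0 : 0 < lam := by positivity
  have hlam1 : lam ≤ 1 := by rw [hlam]; linarith
  set a := Real.exp lam - 1 with ha
  have ha0 : 0 ≤ a := by
    have := Real.add_one_le_exp lam
    rw [ha]; linarith
  have ha1 : a ≤ lam + lam ^ 2 := by
    have := Real.abs_exp_sub_one_sub_id_le (x := lam) (by rw [abs_of_pos hlam0]; exact hlam1)
    rw [abs_le] at this
    rw [ha]; linarith [this.2]
  -- exponential of the count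
  have hexp : ∀ χ : Fin M → Fin R,
      ∏ k ∈ K, (1 + a * (if ext M c0 χ k = j ∧ ext M c0 χ (s - k) = j then (1 : ℝ) else 0))
      = Real.exp (lam * cnt (ext M c0 χ) s K j) := by
    intro χ
    have : ∀ k ∈ K, (1 + a * (if ext M c0 χ k = j ∧ ext M c0 χ (s - k) = j then (1 : ℝ) else 0))
        = Real.exp (lam * (if ext M c0 χ k = j ∧ ext M c0 χ (s - k) = j then (1 : ℝ) else 0)) := by
      intro k _
      split_ifs
      · rw [ha]; simp
      · simp
    rw [Finset.prod_congr rfl this, ← Real.exp_sum, ← Finset.mul_sum]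
    congr 2
    rw [cnt, Finset.card_filter]
    push_cast
    rfl
  have hmgf := sum_mgf w h1 c0 j s K hK a
  have hbound : ∏ k ∈ K, (1 + a * (w k j * w (s - k) j)) ≤ Real.exp (a * μ) := by
    rw [hμ, Finset.mul_sum, Real.exp_sum]
    refine Finset.prod_le_prod (fun k _ => ?_) fun k _ => ?_
    · have := mul_nonneg ha0 (mul_nonneg (h0 k j) (h0 (s - k) j)); linarith
    · have := Real.add_one_le_exp (a * (w k j * w (s - k) j)); linarith
  calc _ ≤ ∑ χ ∈ (univ : Finset (Fin M → Fin R)).filter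
            (fun χ => μ + ε * M < cnt (ext M c0 χ) s K j),
        (∏ k : Fin M, w k (χ k)) * (Real.exp (-(lam * (μ + ε * M))) *
          ∏ k ∈ K, (1 + a * (if ext M c0 χ k = j ∧ ext M c0 χ (s - k) = j
            then (1 : ℝ) else 0))) := by
        refine Finset.sum_le_sum fun χ hχ => ?_
        rw [mem_filter] at hχ
        rw [hexp, ← Real.exp_add]
        have : (1 : ℝ) ≤ Real.exp (-(lam * (μ + ε * M)) + lam * cnt (ext M c0 χ) s K j) := by
          apply Real.one_le_exp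
          nlinarith [hχ.2]
        nlinarith [hW χ]
    _ ≤ ∑ χ : Fin M → Fin R,
        (∏ k : Fin M, w k (χ k)) * (Real.exp (-(lam * (μ + ε * M))) *
          ∏ k ∈ K, (1 + a * (if ext M c0 χ k = j ∧ ext M c0 χ (s - k) = j
            then (1 : ℝ) else 0))) := by
        refine Finset.sum_le_sum_of_subset_of_nonneg (Finset.filter_subset _ _) fun χ _ _ => ?_
        rw [hexp]
        exact mul_nonneg (hW χ) (mul_nonneg (Real.exp_pos _).le (Real.exp_pos _).le)
    _ = Real.exp (-(lam * (μ + ε * M))) * ∏ k ∈ K, (1 + a * (w k j * w (s - k) j)) := by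
        rw [← hmgf, Finset.mul_sum]
        refine Finset.sum_congr rfl fun χ _ => ?_
        ring
    _ ≤ Real.exp (-(lam * (μ + ε * M))) * Real.exp (a * μ) :=
        mul_le_mul_of_nonneg_left hbound (Real.exp_pos _).le
    _ = Real.exp (-(lam * (μ + ε * M)) + a * μ) := by rw [Real.exp_add]
    _ ≤ Real.exp (-(ε ^ 2 * M / 4)) := by
        rw [Real.exp_le_exp]
        have h2 : a * μ ≤ (lam + lam ^ 2) * μ := mul_le_mul_of_nonneg_right ha1 hμ0
        have h3 : lam ^ 2 * μ ≤ lam ^ 2 * M := mul_le_mul_of_nonneg_left hμM (by positivity)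
        rw [hlam] at *
        nlinarith

theorem sum_biUnion_le {α β : Type*} [DecidableEq α] [DecidableEq β] (P : Finset β)
    (t : β → Finset α) (f : α → ℝ) (hf : ∀ x, 0 ≤ f x) :
    ∑ x ∈ P.biUnion t, f x ≤ ∑ p ∈ P, ∑ x ∈ t p, f x := by
  induction P using Finset.induction_on with
  | empty => simp
  | insert p P hp ih =>
    rw [Finset.biUnion_insert, Finset.sum_insert hp]
    have h := Finset.sum_union_inter (s₁ := t p) (s₂ := P.biUnion t) (f := f)
    have h2 : 0 ≤ ∑ x ∈ t p ∩ P.biUnion t, f x := Finset.sum_nonneg fun x _ => hf x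
    linarith

theorem exists_colouring (w : ℕ → Fin R → ℝ) (h0 : ∀ k c, 0 ≤ w k c)
    (h1 : ∀ k < M, ∑ c, w k c = 1) (c0 : Fin R) (ε : ℝ) (hε : 0 < ε) (hε1 : ε ≤ 1)
    (hM : 2 * M * R * Real.exp (-(ε ^ 2 * M / 4)) < 1) :
    ∃ c : ℕ → Fin R, ∀ j : Fin R, ∀ s < 2 * M,
      (cnt c s ((range (s + 1)).filter fun k => 2 * k < s ∧ s - k < M) j : ℝ)
        ≤ ∑ k ∈ (range (s + 1)).filter (fun k => 2 * k < s ∧ s - k < M), w k j * w (s - k) j
          + ε * M := by
  by_contra hcon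
  push Not at hcon
  set A : ℕ → Finset ℕ := fun s => (range (s + 1)).filter fun k => 2 * k < s ∧ s - k < M with hA
  have hcov : (univ : Finset (Fin M → Fin R)) ⊆
      (univ ×ˢ range (2 * M) : Finset (Fin R × ℕ)).biUnion fun p =>
        univ.filter (fun χ => ∑ k ∈ A p.2, w k p.1 * w (p.2 - k) p.1 + ε * M
          < cnt (ext M c0 χ) p.2 (A p.2) p.1) := by
    intro χ _
    obtain ⟨j, s, hs, hlt⟩ := hcon (ext M c0 χ)
    rw [mem_biUnion]
    refine ⟨(j, s), by simp [hs], ?_⟩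
    rw [mem_filter]
    exact ⟨mem_univ _, hlt⟩
  have hW : ∀ χ : Fin M → Fin R, 0 ≤ ∏ k : Fin M, w k (χ k) :=
    fun χ => Finset.prod_nonneg fun k _ => h0 _ _
  have h2 : (1 : ℝ) ≤ 2 * M * R * Real.exp (-(ε ^ 2 * M / 4)) := by
    calc (1 : ℝ) = ∑ χ : Fin M → Fin R, (∏ k : Fin M, w k (χ k)) := (sum_one w h1 c0).symm
      _ ≤ ∑ χ ∈ (univ ×ˢ range (2 * M) : Finset (Fin R × ℕ)).biUnion (fun p =>
          univ.filter (fun χ => ∑ k ∈ A p.2, w k p.1 * w (p.2 - k) p.1 + ε * M
            < cnt (ext M c0 χ) p.2 (A p.2) p.1)), (∏ k : Fin M, w k (χ k)) :=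
          Finset.sum_le_sum_of_subset_of_nonneg hcov fun χ _ _ => hW χ
      _ ≤ ∑ p ∈ (univ ×ˢ range (2 * M) : Finset (Fin R × ℕ)),
          ∑ χ ∈ univ.filter (fun χ : Fin M → Fin R =>
            ∑ k ∈ A p.2, w k p.1 * w (p.2 - k) p.1 + ε * M
            < cnt (ext M c0 χ) p.2 (A p.2) p.1), (∏ k : Fin M, w k (χ k)) :=
          sum_biUnion_le _ _ _ hW
      _ ≤ ∑ _p ∈ (univ ×ˢ range (2 * M) : Finset (Fin R × ℕ)),
          Real.exp (-(ε ^ 2 * M / 4)) := by
          refine Finset.sum_le_sum fun p _ => ?_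
          refine tail w h0 h1 c0 p.1 p.2 (A p.2) ?_ ε hε hε1
          intro k hk
          rw [hA, mem_filter] at hk
          exact hk.2
      _ = 2 * M * R * Real.exp (-(ε ^ 2 * M / 4)) := by
          rw [Finset.sum_const, Finset.card_product]
          simp
          ring
  linarith

end Pool.Agent.TH92.SymCol
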