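import Pool.Agent.TH92.SymCol.Defs
import Pool.Agent.TH92.SymCol.Prob

set_option autoImplicit false

/-!
# From colourings of `{0, …, M-1}` to colourings of `[0,1]`
-/

namespace Pool.Agent.TH92.SymCol

open MeasureTheory

/-- The `k` with `k, s - k ∈ {0, …, M-1}`, both of colour `j`. -/
def Kset {R : ℕ} (M : ℕ) (c : ℕ → Fin R) (s : ℕ) (j : Fin R) : Finset ℕ :=
  (Finset.range (s + 1)).filter fun k => (k < M ∧ s - k < M) ∧ c k = j ∧ c (s - k) = j

theorem volume_le {R : ℕ} (M : ℕ) (hM : 0 < M) (c : ℕ → Fin R) (X : ℝ)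
    (hX : ∀ s j, ((Kset M c s j).card : ℝ) ≤ X) (A : Set ℝ) (hA : A ⊆ Set.Icc (0 : ℝ) 1)
    (x : ℝ) (hx : A = (fun t => 2 * x - t) '' A) (j : Fin R)
    (hj : ∀ t ∈ A, c ⌊t * M⌋₊ = j) : volume A ≤ ENNReal.ofReal (X / M) := by
  have hMr : (0 : ℝ) < M := by exact_mod_cast hM
  have hX0 : 0 ≤ X := le_trans (Nat.cast_nonneg _) (hX 0 j)
  rcases Set.eq_empty_or_nonempty A with rfl | ⟨t0, ht0⟩
  · simp
  have hmem : ∀ t ∈ A, 2 * x - t ∈ A := by
    intro t ht
    rw [hx]
    exact ⟨t, ht, rfl⟩
  have hx0 : 0 ≤ 2 * x := by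
    have h1 := (hA ht0).1
    have h2 := (hA (hmem _ ht0)).1
    linarith
  set S : ℕ := ⌊2 * x * M⌋₊ with hS
  have hy0 : 0 ≤ 2 * x * M := by positivity
  have hS1 : (S : ℝ) ≤ 2 * x * M := Nat.floor_le hy0
  have hS2 : 2 * x * M < S + 1 := Nat.lt_floor_add_one _
  set θ : ℝ := 2 * x * M - S with hθ
  have hθ0 : 0 ≤ θ := by rw [hθ]; linarith
  have hθ1 : θ ≤ 1 := by rw [hθ]; linarith
  have hsub : A ⊆ (({1, 2 * x - 1} : Finset ℝ) : Set ℝ) ∪
      ((⋃ k ∈ Kset M c S j, Set.Icc ((k : ℝ) / M) ((k + θ) / M)) ∪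
       (⋃ k ∈ Kset M c (S - 1) j, Set.Icc (((k : ℝ) + θ) / M) ((k + 1) / M))) := by
    intro t ht
    by_cases h1 : t = 1
    · left; simp [h1]
    by_cases h2 : 2 * x - t = 1
    · left
      have : t = 2 * x - 1 := by linarith
      simp [this]
    right
    have ht' := hmem t ht
    have t0 := (hA ht).1
    have t1 : t < 1 := lt_of_le_of_ne (hA ht).2 h1
    have u0 := (hA ht').1
    have u1 : 2 * x - t < 1 := lt_of_le_of_ne (hA ht').2 h2
    set k := ⌊t * M⌋₊ with hk
    set l := ⌊(2 * x - t) * M⌋₊ with hl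
    have k1 : (k : ℝ) ≤ t * M := Nat.floor_le (by positivity)
    have k2 : t * M < k + 1 := Nat.lt_floor_add_one _
    have l1 : (l : ℝ) ≤ (2 * x - t) * M := Nat.floor_le (mul_nonneg u0 hMr.le)
    have l2 : (2 * x - t) * M < l + 1 := Nat.lt_floor_add_one _
    have kM : k < M := by
      have : (k : ℝ) < M := by nlinarith
      exact_mod_cast this
    have lM : l < M := by
      have : (l : ℝ) < M := by nlinarith
      exact_mod_cast this
    have hkl1 : k + l ≤ S := by
      have : (k : ℝ) + l < S + 1 := by linarith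
      have : k + l < S + 1 := by exact_mod_cast this
      omega
    have hkl2 : S ≤ k + l + 1 := by
      have : (S : ℝ) < k + l + 2 := by linarith
      have : S < k + l + 2 := by exact_mod_cast this
      omega
    have ck : c k = j := hj t ht
    have cl : c l = j := hj _ ht'
    rcases Nat.lt_or_ge (k + l) S with h | h
    · -- k + l = S - 1
      right
      have e : k + l = S - 1 := by omega
      have e' : (k : ℝ) + l + 1 = S := by
        have : k + l + 1 = S := by omega
        exact_mod_cast this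
      rw [Set.mem_iUnion₂]
      refine ⟨k, ?_, ?_⟩
      · rw [Kset, Finset.mem_filter, Finset.mem_range]
        have e2 : S - 1 - k = l := by omega
        rw [e2]
        exact ⟨by omega, ⟨kM, lM⟩, ck, cl⟩
      · rw [Set.mem_Icc, div_le_iff₀ hMr, le_div_iff₀ hMr]
        constructor
        · rw [hθ]; linarith
        · linarith
    · left
      have e : k + l = S := by omega
      have e' : (k : ℝ) + l = S := by exact_mod_cast e
      rw [Set.mem_iUnion₂]
      refine ⟨k, ?_, ?_⟩
      · rw [Kset, Finset.mem_filter, Finset.mem_range]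
        have e2 : S - k = l := by omega
        rw [e2]
        exact ⟨by omega, ⟨kM, lM⟩, ck, cl⟩
      · rw [Set.mem_Icc, div_le_iff₀ hMr, le_div_iff₀ hMr]
        constructor
        · linarith
        · rw [hθ]; linarith
  have hv1 : volume (⋃ k ∈ Kset M c S j, Set.Icc ((k : ℝ) / M) ((k + θ) / M))
      ≤ ENNReal.ofReal (X * (θ / M)) := by
    refine le_trans (measure_biUnion_finset_le _ _) ?_
    have : ∀ k ∈ Kset M c S j, volume (Set.Icc ((k : ℝ) / M) ((k + θ) / M))
        = ENNReal.ofReal (θ / M) := by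
      intro k _
      rw [Real.volume_Icc]
      congr 1
      ring
    rw [Finset.sum_congr rfl this, Finset.sum_const, nsmul_eq_mul]
    rw [ENNReal.ofReal_mul hX0]
    gcongr
    rw [← ENNReal.ofReal_natCast]
    exact ENNReal.ofReal_le_ofReal (hX _ _)
  have hv2 : volume (⋃ k ∈ Kset M c (S - 1) j, Set.Icc (((k : ℝ) + θ) / M) ((k + 1) / M))
      ≤ ENNReal.ofReal (X * ((1 - θ) / M)) := by
    refine le_trans (measure_biUnion_finset_le _ _) ?_
    have : ∀ k ∈ Kset M c (S - 1) j, volume (Set.Icc (((k : ℝ) + θ) / M) ((k + 1) / M))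
        = ENNReal.ofReal ((1 - θ) / M) := by
      intro k _
      rw [Real.volume_Icc]
      congr 1
      ring
    rw [Finset.sum_congr rfl this, Finset.sum_const, nsmul_eq_mul]
    rw [ENNReal.ofReal_mul hX0]
    gcongr
    rw [← ENNReal.ofReal_natCast]
    exact ENNReal.ofReal_le_ofReal (hX _ _)
  have hv0 : volume (({1, 2 * x - 1} : Finset ℝ) : Set ℝ) = 0 := by
    exact Set.Finite.measure_zero (Finset.finite_toSet _) _
  calc volume A ≤ volume _ := measure_mono hsub
    _ ≤ volume (({1, 2 * x - 1} : Finset ℝ) : Set ℝ) +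
        (volume (⋃ k ∈ Kset M c S j, Set.Icc ((k : ℝ) / M) ((k + θ) / M)) +
         volume (⋃ k ∈ Kset M c (S - 1) j, Set.Icc (((k : ℝ) + θ) / M) ((k + 1) / M))) :=
        le_trans (measure_union_le _ _) (by gcongr; exact measure_union_le _ _)
    _ ≤ 0 + (ENNReal.ofReal (X * (θ / M)) + ENNReal.ofReal (X * ((1 - θ) / M))) := by
        rw [hv0]
        gcongr
    _ = ENNReal.ofReal (X / M) := by
        rw [zero_add, ← ENNReal.ofReal_add (by positivity)
          (mul_nonneg hX0 (div_nonneg (by linarith) hMr.le))]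
        congr 1
        ring

theorem isColouring {R : ℕ} (M : ℕ) (c : ℕ → Fin R) :
    IsColouring R (fun t => c ⌊t * M⌋₊) := by
  intro i
  have h1 : Measurable (fun t : ℝ => ⌊t * (M : ℝ)⌋₊) :=
    Nat.measurable_floor.comp (measurable_id.mul_const _)
  have h2 : MeasurableSet {t : ℝ | c ⌊t * (M : ℝ)⌋₊ = i} := by
    have : {t : ℝ | c ⌊t * (M : ℝ)⌋₊ = i} = (fun t : ℝ => ⌊t * (M : ℝ)⌋₊) ⁻¹' {m | c m = i} := rfl
    rw [this]
    exact h1 (MeasurableSet.of_discrete)
  exact (measurableSet_Icc.inter h2).nullMeasurableSet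

theorem ms_le {R : ℕ} (M : ℕ) (hM : 0 < M) (c : ℕ → Fin R) (X : ℝ) (hX0 : 0 ≤ X)
    (hX : ∀ s j, ((Kset M c s j).card : ℝ) ≤ X) : ms R ≤ X / M := by
  refine Real.sSup_le ?_ (by positivity)
  rintro ε ⟨hε, h⟩
  obtain ⟨A, hA, -, ⟨x, hx⟩, ⟨i, hi⟩, hv⟩ := h _ (isColouring M c)
  have := le_trans hv (volume_le M hM c X hX A hA x hx i hi)
  rwa [ENNReal.ofReal_le_ofReal_iff (by positivity)] at this

/-- The full count is at most twice the count below the centre, plus one. -/
theorem card_Kset_le {R : ℕ} (M : ℕ) (c : ℕ → Fin R) (s : ℕ) (j : Fin R) :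
    (Kset M c s j).card ≤
      2 * cnt c s ((Finset.range (s + 1)).filter fun k => 2 * k < s ∧ s - k < M) j + 1 := by
  classical
  set P := (((Finset.range (s + 1)).filter fun k => 2 * k < s ∧ s - k < M).filter
    fun k => c k = j ∧ c (s - k) = j) with hP
  have hsub : Kset M c s j ⊆ (P ∪ P.image (fun k => s - k)) ∪ {s / 2} := by
    intro k hk
    rw [Kset, Finset.mem_filter, Finset.mem_range] at hk
    obtain ⟨hk1, ⟨hk2, hk3⟩, hk4, hk5⟩ := hk
    rw [Finset.mem_union, Finset.mem_union, Finset.mem_singleton, Finset.mem_image]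
    rcases Nat.lt_trichotomy (2 * k) s with h | h | h
    · left; left
      rw [hP, Finset.mem_filter, Finset.mem_filter, Finset.mem_range]
      exact ⟨⟨hk1, h, hk3⟩, hk4, hk5⟩
    · right; omega
    · left; right
      refine ⟨s - k, ?_, by omega⟩
      rw [hP, Finset.mem_filter, Finset.mem_filter, Finset.mem_range]
      have e : s - (s - k) = k := by omega
      rw [e]
      exact ⟨⟨by omega, by omega, hk2⟩, hk5, hk4⟩
  have h1 := Finset.card_le_card hsub
  have h2 := Finset.card_union_le (P ∪ P.image (fun k => s - k)) {s / 2}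
  have h3 := Finset.card_union_le P (P.image (fun k => s - k))
  have h4 : (P.image (fun k => s - k)).card ≤ P.card := Finset.card_image_le
  have h5 : cnt c s ((Finset.range (s + 1)).filter fun k => 2 * k < s ∧ s - k < M) j = P.card := rfl
  rw [Finset.card_singleton] at h2
  omega

/-- Twice the sum of the products below the centre is at most the full sum. -/
theorem two_sum_le (M : ℕ) (g : ℕ → ℝ) (hg : ∀ k, 0 ≤ g k) (s : ℕ) :
    2 * ∑ k ∈ (Finset.range (s + 1)).filter (fun k => 2 * k < s ∧ s - k < M), g k * g (s - k)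
      ≤ ∑ k ∈ Finset.range (s + 1), g k * g (s - k) := by
  classical
  set P := (Finset.range (s + 1)).filter (fun k => 2 * k < s ∧ s - k < M) with hP
  have hinj : Set.InjOn (fun k => s - k) (P : Set ℕ) := by
    intro x hx y hy hxy
    rw [hP, Finset.mem_coe, Finset.mem_filter] at hx hy
    simp only at hxy
    omega
  have hdisj : Disjoint P (P.image fun k => s - k) := by
    rw [Finset.disjoint_left]
    intro x hx hx'
    rw [Finset.mem_image] at hx'
    obtain ⟨y, hy, hyx⟩ := hx'
    rw [hP, Finset.mem_filter] at hx hy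
    omega
  have h1 : ∑ k ∈ P.image (fun k => s - k), g k * g (s - k) = ∑ k ∈ P, g k * g (s - k) := by
    rw [Finset.sum_image hinj]
    refine Finset.sum_congr rfl fun k hk => ?_
    rw [hP, Finset.mem_filter, Finset.mem_range] at hk
    have e : s - (s - k) = k := by omega
    rw [e, mul_comm]
  have h2 : ∑ k ∈ P ∪ P.image (fun k => s - k), g k * g (s - k)
      ≤ ∑ k ∈ Finset.range (s + 1), g k * g (s - k) := by
    refine Finset.sum_le_sum_of_subset_of_nonneg ?_ fun k _ _ => mul_nonneg (hg _) (hg _)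
    intro k hk
    rw [Finset.mem_union, Finset.mem_image] at hk
    rcases hk with hk | ⟨y, hy, rfl⟩
    · exact (Finset.mem_filter.1 hk).1
    · rw [Finset.mem_range]; omega
  rw [Finset.sum_union hdisj, h1] at h2
  linarith

end Pool.Agent.TH92.SymCol
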