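import Pool.Agent.TH92.SymCol.Conv
import Pool.Agent.TH92.SymCol.Meas

set_option autoImplicit false

/-!
# Partitions of unity with small self-convolutions bound `ms([0,1], R)`
-/

namespace Pool.Agent.TH92.SymCol

open Finset Filter Topology

/-- A partition of unity into `r` step functions on `N` steps (in units of `1/D`) with
self-convolutions at most `B`. -/
structure IsTable (r N D B : ℕ) (T : ℕ → ℕ → ℕ) : Prop where
  r0 : 0 < r
  N0 : 0 < N
  D0 : 0 < D
  supp : ∀ j a, N ≤ a → T j a = 0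
  colsum : ∀ a < N, ∑ j ∈ range r, T j a = D
  conv : ∀ j < r, ∀ u, ∑ a ∈ range (u + 1), T j a * T j (u - a) ≤ B

theorem sum_mod (r q : ℕ) (f : ℕ → ℝ) :
    ∑ c ∈ range (r * q), f (c % r) = q * ∑ j ∈ range r, f j := by
  induction q with
  | zero => simp
  | succ q ih =>
    rw [Nat.mul_succ, Finset.sum_range_add, ih]
    have : ∀ x ∈ range r, f ((r * q + x) % r) = f x := by
      intro x hx
      rw [Nat.mul_add_mod, Nat.mod_eq_of_lt (mem_range.1 hx)]
    rw [Finset.sum_congr rfl this]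
    push_cast
    ring

/-- The weights. -/
noncomputable def wt (r D L q : ℕ) (T : ℕ → ℕ → ℕ) (R : ℕ) (k : ℕ) (c : Fin R) : ℝ :=
  if (c : ℕ) < r * q then (T (c % r) (k / L) : ℝ) / (D * q) else 0

variable {r N D B : ℕ} {T : ℕ → ℕ → ℕ}

theorem wt_nonneg (L q R k : ℕ) (c : Fin R) : 0 ≤ wt r D L q T R k c := by
  unfold wt
  split_ifs <;> positivity

theorem wt_sum (hT : IsTable r N D B T) (L q R : ℕ) (hq : 0 < q) (hR : r * q ≤ R)
    (k : ℕ) (hk : k < N * L) : ∑ c, wt r D L q T R k c = 1 := by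
  have hD : (D : ℝ) ≠ 0 := by exact_mod_cast hT.D0.ne'
  have hq' : (q : ℝ) ≠ 0 := by exact_mod_cast hq.ne'
  have h1 := Finset.sum_range (fun c => if c < r * q then
    (T (c % r) (k / L) : ℝ) / (D * q) else 0) (n := R)
  unfold wt
  rw [← h1, ← Finset.sum_filter]
  have h2 : (range R).filter (fun c => c < r * q) = range (r * q) := by
    ext c
    rw [mem_filter, mem_range, mem_range]
    omega
  rw [h2, sum_mod r q (fun j => (T j (k / L) : ℝ) / (D * q)), ← Finset.sum_div]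
  have h3 : ∑ j ∈ range r, (T j (k / L) : ℝ) = D := by
    exact_mod_cast hT.colsum (k / L) (Nat.div_lt_of_lt_mul (by rwa [mul_comm] at hk))
  rw [h3]
  field_simp

theorem wt_conv (hT : IsTable r N D B T) (L q R : ℕ) (hL : 0 < L) (s : ℕ)
    (c : Fin R) : ∑ k ∈ range (s + 1), wt r D L q T R k c * wt r D L q T R (s - k) c
      ≤ L * B / (D * q) ^ 2 := by
  unfold wt
  by_cases hc : (c : ℕ) < r * q
  · simp only [hc, if_true]
    have h1 := conv_blow (T (c % r)) B L (hT.conv (c % r) (Nat.mod_lt _ hT.r0)) s hL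
    have h2 : ∑ k ∈ range (s + 1), ((T (c % r) (k / L) : ℝ) / (D * q)) *
        ((T (c % r) ((s - k) / L) : ℝ) / (D * q))
        = (∑ k ∈ range (s + 1), (T (c % r) (k / L) : ℝ) * T (c % r) ((s - k) / L))
          / (D * q) ^ 2 := by
      rw [Finset.sum_div]
      refine Finset.sum_congr rfl fun k _ => ?_
      rw [div_mul_div_comm, sq]
    rw [h2]
    have h3 : (∑ k ∈ range (s + 1), (T (c % r) (k / L) : ℝ) * T (c % r) ((s - k) / L))
        ≤ L * B := by exact_mod_cast h1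
    exact div_le_div_of_nonneg_right h3 (by positivity)
  · simp only [hc, if_false]
    simp only [mul_zero, Finset.sum_const_zero]
    positivity

/-- For `R ≥ r q`: `ms R ≤ B / (N D² q²)`. -/
theorem ms_bound (hT : IsTable r N D B T) (q R : ℕ) (hq : 0 < q) (hR : r * q ≤ R) :
    ms R ≤ B / (N * (D * q) ^ 2) := by
  have hN : (0 : ℝ) < N := by exact_mod_cast hT.N0
  have hD : (0 : ℝ) < D := by exact_mod_cast hT.D0
  have hq' : (0 : ℝ) < q := by exact_mod_cast hq
  have hRpos : 0 < R := lt_of_lt_of_le (Nat.mul_pos hT.r0 hq) hR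
  refine le_of_forall_pos_le_add fun δ hδ => ?_
  set ε : ℝ := min 1 (δ / 4) with hε
  have hε0 : 0 < ε := by rw [hε]; positivity
  have hε1 : ε ≤ 1 := min_le_left _ _
  have hε2 : ε ≤ δ / 4 := min_le_right _ _
  -- choose L
  have hlim : Tendsto (fun L : ℕ => 2 * ((N * L : ℕ) : ℝ) * R *
      Real.exp (-(ε ^ 2 * ((N * L : ℕ) : ℝ) / 4))) atTop (𝓝 0) := by
    have h1 := Real.tendsto_pow_mul_exp_neg_atTop_nhds_zero 1
    have h2 : Tendsto (fun L : ℕ => ε ^ 2 * ((N * L : ℕ) : ℝ) / 4) atTop atTop := by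
      have : (fun L : ℕ => ε ^ 2 * ((N * L : ℕ) : ℝ) / 4)
          = fun L : ℕ => (ε ^ 2 * N / 4) * (L : ℝ) := by
        funext L; push_cast; ring
      rw [this]
      exact Tendsto.const_mul_atTop (by positivity) tendsto_natCast_atTop_atTop
    have h3 := (h1.comp h2).const_mul (8 * R / ε ^ 2)
    rw [mul_zero] at h3
    refine h3.congr fun L => ?_
    simp only [Function.comp, pow_one]
    field_simp
    ring
  have hev1 := hlim.eventually (gt_mem_nhds (show (0 : ℝ) < 1 by norm_num))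
  have hlim2 : Tendsto (fun L : ℕ => 1 / (L : ℝ)) atTop (𝓝 0) := by
    simpa using tendsto_one_div_atTop_nhds_zero_nat (𝕜 := ℝ)
  have hev2 := hlim2.eventually (gt_mem_nhds (show (0 : ℝ) < δ / 2 by positivity))
  obtain ⟨L, ⟨hL1, hL2⟩, hL3⟩ := ((hev1.and hev2).and (eventually_gt_atTop 0)).exists
  have hL : (0 : ℝ) < L := by exact_mod_cast hL3
  set M := N * L with hM
  have hM0 : 0 < M := Nat.mul_pos hT.N0 hL3
  have hMr : (0 : ℝ) < M := by exact_mod_cast hM0
  obtain ⟨c, hc⟩ := exists_colouring (M := M) (R := R) (wt r D L q T R)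
    (fun k c => wt_nonneg L q R k c) (fun k hk => wt_sum hT L q R hq hR k hk)
    ⟨0, hRpos⟩ ε hε0 hε1 hL1
  set X : ℝ := L * B / (D * q) ^ 2 + 2 * (ε * M) + 1 with hX
  have hX0 : 0 ≤ X := by rw [hX]; positivity
  have hcard : ∀ s j, ((Kset M c s j).card : ℝ) ≤ X := by
    intro s j
    rcases Nat.lt_or_ge s (2 * M) with hs | hs
    · have h1 := hc j s hs
      have h2 : ((Kset M c s j).card : ℝ) ≤
          2 * cnt c s ((range (s + 1)).filter fun k => 2 * k < s ∧ s - k < M) j + 1 := by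
        exact_mod_cast card_Kset_le M c s j
      have h3 := two_sum_le M (fun k => wt r D L q T R k j)
        (fun k => wt_nonneg L q R k j) s
      have h4 := wt_conv hT L q R hL3 s j
      rw [hX]
      linarith
    · have : Kset M c s j = ∅ := by
        rw [Finset.eq_empty_iff_forall_notMem]
        intro k hk
        rw [Kset, mem_filter, mem_range] at hk
        omega
      rw [this, Finset.card_empty, Nat.cast_zero]
      exact hX0
  have hfin := ms_le M hM0 c X hX0 hcard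
  have hXM : X / M = B / (N * (D * q) ^ 2) + 2 * ε + 1 / M := by
    rw [hX, hM]
    push_cast
    field_simp
  have h1M : 1 / (M : ℝ) ≤ δ / 2 := by
    refine le_trans ?_ hL2.le
    apply one_div_le_one_div_of_le hL
    have : L ≤ M := Nat.le_mul_of_pos_left L hT.N0
    exact_mod_cast this
  rw [hXM] at hfin
  linarith

theorem ms_nonneg (R : ℕ) : 0 ≤ ms R :=
  Real.sSup_nonneg fun _ h => h.1.le

/-- Asymptotically, `R² ms R` is at most `κ = r² B / (N D²)`. -/
theorem eventually_le (hT : IsTable r N D B T) (δ : ℝ) (hδ : 0 < δ) :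
    ∀ᶠ R : ℕ in atTop, (R : ℝ) ^ 2 * ms R ≤ (r : ℝ) ^ 2 * B / (N * (D : ℝ) ^ 2) + δ := by
  have hN : (0 : ℝ) < N := by exact_mod_cast hT.N0
  have hD : (0 : ℝ) < D := by exact_mod_cast hT.D0
  have hr : (0 : ℝ) < r := by exact_mod_cast hT.r0
  set κ : ℝ := (r : ℝ) ^ 2 * B / (N * (D : ℝ) ^ 2) with hκ
  have hκ0 : 0 ≤ κ := by rw [hκ]; positivity
  obtain ⟨Q, hQ⟩ := exists_nat_gt (3 * κ / δ)
  filter_upwards [eventually_ge_atTop (r * (Q + 1))] with R hR
  set q := R / r with hq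
  have hqQ : Q + 1 ≤ q := by
    rw [hq, Nat.le_div_iff_mul_le hT.r0, mul_comm]
    exact hR
  have hq0 : 0 < q := by omega
  have hqr : (0 : ℝ) < q := by exact_mod_cast hq0
  have h1 : r * q ≤ R := Nat.mul_div_le R r
  have h2 : R < r * (q + 1) := Nat.lt_mul_div_succ R hT.r0
  have h3 := ms_bound hT q R hq0 h1
  have h4 : (R : ℝ) ^ 2 ≤ (r * (q + 1)) ^ 2 := by
    have : (R : ℝ) ≤ r * (q + 1) := by exact_mod_cast h2.le
    gcongr
  have h5 : (R : ℝ) ^ 2 * ms R ≤ (r * (q + 1)) ^ 2 * (B / (N * (D * q) ^ 2)) :=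
    mul_le_mul h4 h3 (ms_nonneg R) (by positivity)
  have h6 : ((r : ℝ) * (q + 1)) ^ 2 * (B / (N * (D * q) ^ 2)) = κ * (1 + 2 / q + 1 / q ^ 2) := by
    rw [hκ]
    field_simp
    ring
  have h7 : 1 / (q : ℝ) ^ 2 ≤ 1 / q := by
    apply one_div_le_one_div_of_le hqr
    have : (1 : ℝ) ≤ q := by exact_mod_cast hq0
    nlinarith
  have h8 : 3 * κ / q ≤ δ := by
    rw [div_le_iff₀ hqr]
    have : (Q : ℝ) ≤ q := by exact_mod_cast (by omega : Q ≤ q)
    rw [div_lt_iff₀ hδ] at hQ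
    nlinarith
  calc _ ≤ _ := h5
    _ = κ * (1 + 2 / q + 1 / q ^ 2) := h6
    _ ≤ κ * (1 + 2 / q + 1 / q) := by gcongr
    _ = κ + 3 * κ / q := by ring
    _ ≤ κ + δ := by linarith

theorem limit_le (hT : IsTable r N D B T) (c : ℝ)
    (hc : Tendsto (fun R : ℕ => (R : ℝ) ^ 2 * ms R) atTop (𝓝 c)) :
    c ≤ (r : ℝ) ^ 2 * B / (N * (D : ℝ) ^ 2) := by
  refine le_of_forall_pos_le_add fun δ hδ => ?_
  exact le_of_tendsto hc (eventually_le hT δ hδ)

end Pool.Agent.TH92.SymCol
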