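import Mathlib

set_option autoImplicit false

/-!
# Certified tables of sines and cosines, and a polygon around the unit circle
-/

namespace Pool.Agent.TH92.SymCol

/-- If consecutive table entries agree with the rotation by `θ` up to rounding, then the table is
accurate. -/
theorem table_accurate (θ : ℝ) (C S D T : ℤ) (hD : 0 < D) (hc : Real.cos θ = C / D)
    (hs : Real.sin θ = S / D) (c s : ℕ → ℤ) (n : ℕ) (h0 : c 0 = T) (h0' : s 0 = 0)
    (hstep : ∀ m < n, |c (m + 1) * D - (C * c m - S * s m)| ≤ D ∧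
      |s (m + 1) * D - (S * c m + C * s m)| ≤ D) :
    ∀ m ≤ n, ((c m : ℝ) - T * Real.cos (m * θ)) ^ 2 + ((s m : ℝ) - T * Real.sin (m * θ)) ^ 2
      ≤ (2 * m) ^ 2 := by
  intro m
  induction m with
  | zero => intro _; simp [h0, h0']
  | succ m ih =>
    intro hm
    have ih' := ih (by omega)
    obtain ⟨h1, h2⟩ := hstep m (by omega)
    have hDr : (0 : ℝ) < D := by exact_mod_cast hD
    have h1' : |(c (m + 1) : ℝ) * D - (C * c m - S * s m)| ≤ D := by exact_mod_cast h1
    have h2' : |(s (m + 1) : ℝ) * D - (S * c m + C * s m)| ≤ D := by exact_mod_cast h2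
    set x := (c m : ℝ) - T * Real.cos (m * θ) with hx
    set y := (s m : ℝ) - T * Real.sin (m * θ) with hy
    set e := (c (m + 1) : ℝ) - (Real.cos θ * c m - Real.sin θ * s m) with he
    set f := (s (m + 1) : ℝ) - (Real.sin θ * c m + Real.cos θ * s m) with hf
    have he1 : |e| ≤ 1 := by
      have : e * D = (c (m + 1) : ℝ) * D - (C * c m - S * s m) := by
        rw [he, hc, hs]; field_simp
      rw [← this, abs_mul, abs_of_pos hDr] at h1'
      exact le_of_mul_le_mul_right (by linarith) hDr
    have hf1 : |f| ≤ 1 := by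
      have : f * D = (s (m + 1) : ℝ) * D - (S * c m + C * s m) := by
        rw [hf, hc, hs]; field_simp
      rw [← this, abs_mul, abs_of_pos hDr] at h2'
      exact le_of_mul_le_mul_right (by linarith) hDr
    have hx' : (c (m + 1) : ℝ) - T * Real.cos ((m + 1 : ℕ) * θ)
        = (Real.cos θ * x - Real.sin θ * y) + e := by
      have : ((m + 1 : ℕ) : ℝ) * θ = m * θ + θ := by push_cast; ring
      rw [this, Real.cos_add, hx, hy, he]; ring
    have hy' : (s (m + 1) : ℝ) - T * Real.sin ((m + 1 : ℕ) * θ)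
        = (Real.sin θ * x + Real.cos θ * y) + f := by
      have : ((m + 1 : ℕ) : ℝ) * θ = m * θ + θ := by push_cast; ring
      rw [this, Real.sin_add, hx, hy, hf]; ring
    rw [hx', hy']
    set X := Real.cos θ * x - Real.sin θ * y with hX
    set Y := Real.sin θ * x + Real.cos θ * y with hY
    have hXY : X ^ 2 + Y ^ 2 = x ^ 2 + y ^ 2 := by
      rw [hX, hY]
      have := Real.sin_sq_add_cos_sq θ
      linear_combination (x ^ 2 + y ^ 2) * this
    have hm0 : (0 : ℝ) ≤ m := Nat.cast_nonneg m
    have hXb : |X| ≤ 2 * m := by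
      apply abs_le_of_sq_le_sq _ (by positivity)
      nlinarith [sq_nonneg Y]
    have hYb : |Y| ≤ 2 * m := by
      apply abs_le_of_sq_le_sq _ (by positivity)
      nlinarith [sq_nonneg X]
    have e1 : X * e ≤ 2 * m := by
      calc X * e ≤ |X * e| := le_abs_self _
        _ = |X| * |e| := abs_mul _ _
        _ ≤ 2 * m * 1 := mul_le_mul hXb he1 (abs_nonneg _) (by positivity)
        _ = 2 * m := by ring
    have e2 : Y * f ≤ 2 * m := by
      calc Y * f ≤ |Y * f| := le_abs_self _
        _ = |Y| * |f| := abs_mul _ _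
        _ ≤ 2 * m * 1 := mul_le_mul hYb hf1 (abs_nonneg _) (by positivity)
        _ = 2 * m := by ring
    have e3 : e ^ 2 ≤ 1 := by rw [← sq_abs]; nlinarith [abs_nonneg e]
    have e4 : f ^ 2 ≤ 1 := by rw [← sq_abs]; nlinarith [abs_nonneg f]
    push_cast
    nlinarith

theorem table_accurate' (θ : ℝ) (C S D T : ℤ) (hD : 0 < D) (hc : Real.cos θ = C / D)
    (hs : Real.sin θ = S / D) (c s : ℕ → ℤ) (n : ℕ) (h0 : c 0 = T) (h0' : s 0 = 0)
    (hstep : ∀ m < n, |c (m + 1) * D - (C * c m - S * s m)| ≤ D ∧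
      |s (m + 1) * D - (S * c m + C * s m)| ≤ D) (m : ℕ) (hm : m ≤ n) :
    |(c m : ℝ) - T * Real.cos (m * θ)| ≤ 2 * m ∧ |(s m : ℝ) - T * Real.sin (m * θ)| ≤ 2 * m := by
  have h := table_accurate θ C S D T hD hc hs c s n h0 h0' hstep m hm
  constructor
  · apply abs_le_of_sq_le_sq _ (by positivity)
    nlinarith [sq_nonneg ((s m : ℝ) - T * Real.sin (m * θ))]
  · apply abs_le_of_sq_le_sq _ (by positivity)
    nlinarith [sq_nonneg ((c m : ℝ) - T * Real.cos (m * θ))]

/-- The angle `β` with `cos β = 99/101`, `sin β = 20/101`. -/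
noncomputable def beta : ℝ := Real.arcsin (20 / 101)

theorem sin_beta : Real.sin beta = 20 / 101 := by
  unfold beta; rw [Real.sin_arcsin] <;> norm_num

theorem cos_beta : Real.cos beta = 99 / 101 := by
  unfold beta
  rw [Real.cos_arcsin, show (1 : ℝ) - (20 / 101) ^ 2 = (99 / 101) ^ 2 by norm_num,
    Real.sqrt_sq (by norm_num)]

theorem beta_pos : 0 < beta := by
  unfold beta; rw [Real.arcsin_pos]; norm_num

theorem beta_ge : 20 / 101 ≤ beta := by
  rw [← sin_beta]; exact Real.sin_le beta_pos.le

theorem beta_le : beta ≤ Real.pi / 2 := Real.arcsin_le_pi_div_two _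

/-- First coordinates of the vertices (and of the centre, `i = 33`). -/
noncomputable def VA (i : ℕ) : ℝ := if i < 33 then 1005 / 1000 * Real.cos (i * beta) else 0

/-- Second coordinates of the vertices. -/
noncomputable def VB (i : ℕ) : ℝ := if i < 33 then 1005 / 1000 * Real.sin (i * beta) else 0

open Finset

/-- The polygon contains the unit circle. -/
theorem poly (φ : ℝ) : ∃ l : ℕ → ℝ, (∀ i, 0 ≤ l i) ∧ ∑ i ∈ range 34, l i = 1 ∧
    ∑ i ∈ range 34, l i * VA i = Real.cos φ ∧ ∑ i ∈ range 34, l i * VB i = Real.sin φ := by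
  have hpi := Real.pi_pos
  have hb := beta_pos
  have hb2 := beta_ge
  have hb3 := beta_le
  set z : ℤ := ⌊φ / (2 * Real.pi)⌋ with hz
  set ψ := φ - z * (2 * Real.pi) with hψ
  have hψ0 : 0 ≤ ψ := by
    have := Int.floor_le (φ / (2 * Real.pi))
    rw [← hz, le_div_iff₀ (by positivity)] at this
    rw [hψ]; linarith
  have hψ1 : ψ < 2 * Real.pi := by
    have := Int.lt_floor_add_one (φ / (2 * Real.pi))
    rw [← hz, div_lt_iff₀ (by positivity)] at this
    rw [hψ]; nlinarith
  have hcos : Real.cos φ = Real.cos ψ := by rw [hψ, Real.cos_sub_int_mul_two_pi]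
  have hsin : Real.sin φ = Real.sin ψ := by rw [hψ, Real.sin_sub_int_mul_two_pi]
  set v := ⌊ψ / beta⌋₊ with hv
  have hv1 : (v : ℝ) * beta ≤ ψ := by
    have := Nat.floor_le (show 0 ≤ ψ / beta by positivity)
    rwa [← hv, le_div_iff₀ hb] at this
  have hv2 : ψ < (v + 1) * beta := by
    have := Nat.lt_floor_add_one (ψ / beta)
    rwa [← hv, div_lt_iff₀ hb] at this
  have hv3 : v < 32 := by
    by_contra hcon
    have : (32 : ℝ) ≤ v := by exact_mod_cast (not_lt.1 hcon)
    have hpi2 := Real.pi_lt_d2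
    nlinarith
  set x := ψ - v * beta with hx
  have hx0 : 0 ≤ x := by rw [hx]; linarith
  have hx1 : x ≤ beta := by rw [hx]; linarith
  have hsx : 0 ≤ Real.sin x := Real.sin_nonneg_of_nonneg_of_le_pi hx0 (by linarith)
  have hsx' : 0 ≤ Real.sin (beta - x) :=
    Real.sin_nonneg_of_nonneg_of_le_pi (by linarith) (by linarith)
  have hlm : Real.sin (beta - x) + Real.sin x ≤ 1005 / 1000 * (20 / 101) := by
    rw [Real.sin_sub, sin_beta, cos_beta]
    have h1 := Real.sin_sq_add_cos_sq x
    have h2 : (10 * Real.cos x + Real.sin x) ^ 2 ≤ 101 := by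
      nlinarith [sq_nonneg (10 * Real.sin x - Real.cos x)]
    have h3 : 10 * Real.cos x + Real.sin x ≤ 1005 / 100 := by
      nlinarith
    linarith
  set k : ℝ := 1005 / 1000 * (20 / 101) with hk
  have hk0 : 0 < k := by rw [hk]; norm_num
  refine ⟨fun i => (if i = v then Real.sin (beta - x) / k else 0)
    + (if i = v + 1 then Real.sin x / k else 0)
    + (if i = 33 then 1 - (Real.sin (beta - x) + Real.sin x) / k else 0), ?_, ?_, ?_, ?_⟩
  · intro i
    have h1 : 0 ≤ Real.sin (beta - x) / k := by positivity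
    have h2 : 0 ≤ Real.sin x / k := by positivity
    have h3 : 0 ≤ 1 - (Real.sin (beta - x) + Real.sin x) / k := by
      rw [sub_nonneg, div_le_one hk0]; exact hlm
    simp only
    split_ifs <;> positivity
  · simp only [Finset.sum_add_distrib, Finset.sum_ite_eq', mem_range]
    rw [if_pos (by omega), if_pos (by omega), if_pos (by norm_num)]
    ring
  · simp only [add_mul, ite_mul, zero_mul, Finset.sum_add_distrib, Finset.sum_ite_eq', mem_range]
    rw [if_pos (by omega), if_pos (by omega), if_pos (by norm_num)]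
    have a1 : VA v = 1005 / 1000 * Real.cos (v * beta) := by
      unfold VA; rw [if_pos (by omega)]
    have a2 : VA (v + 1) = 1005 / 1000 * Real.cos ((v * beta) + beta) := by
      unfold VA; rw [if_pos (by omega)]; push_cast; ring_nf
    have a3 : VA 33 = 0 := by unfold VA; simp
    have hψx : ψ = v * beta + x := by rw [hx]; ring
    rw [a1, a2, a3, hcos, hψx]
    have h4 := Real.sin_sq_add_cos_sq x
    rw [Real.cos_add (v * beta) x, Real.cos_add (v * beta) beta, Real.sin_sub, sin_beta, cos_beta,
      hk]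
    field_simp
    ring
  · simp only [add_mul, ite_mul, zero_mul, Finset.sum_add_distrib, Finset.sum_ite_eq', mem_range]
    rw [if_pos (by omega), if_pos (by omega), if_pos (by norm_num)]
    have a1 : VB v = 1005 / 1000 * Real.sin (v * beta) := by
      unfold VB; rw [if_pos (by omega)]
    have a2 : VB (v + 1) = 1005 / 1000 * Real.sin ((v * beta) + beta) := by
      unfold VB; rw [if_pos (by omega)]; push_cast; ring_nf
    have a3 : VB 33 = 0 := by unfold VB; simp
    have hψx : ψ = v * beta + x := by rw [hx]; ring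
    rw [a1, a2, a3, hsin, hψx]
    rw [Real.sin_add (v * beta) x, Real.sin_add (v * beta) beta, Real.sin_sub, sin_beta, cos_beta,
      hk]
    field_simp
    ring

end Pool.Agent.TH92.SymCol
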